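import Mathlib

/-!
# The rate
-/

open Filter Topology

namespace Pool.Agent.V7H23.ZD

/-- The three conditions on large numbers. -/
lemma large (B : ℕ) {c κ β : ℝ} (hκ : 0 < κ) (hβ : 0 < β) :
    ∃ q₀ : ℕ, ∀ q : ℕ, q₀ ≤ q → 1 ≤ q ∧ (2 * (B + 2) : ℝ) * Real.log (q + 2) ≤ q ∧
      2 * Real.exp (-κ * q) * (c * (q + 1) ^ B) ≤ 1 / 4 ∧ c ≤ q / (8 * β) * (q + 2) := by
  have h1 : ∀ᶠ q : ℕ in atTop, 1 ≤ q := eventually_ge_atTop 1
  have h2 : ∀ᶠ q : ℕ in atTop, (2 * (B + 2) : ℝ) * Real.log (q + 2) ≤ q := by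
    have hA : (0 : ℝ) < 2 * (B + 2) := by positivity
    have h3 := Real.isLittleO_log_id_atTop.bound (show (0 : ℝ) < 1 / (2 * (2 * (B + 2))) by
      positivity)
    have h4 : Tendsto (fun q : ℕ => ((q : ℝ) + 2)) atTop atTop :=
      tendsto_atTop_add_const_right _ _ tendsto_natCast_atTop_atTop
    filter_upwards [h4.eventually h3, eventually_ge_atTop 2] with q hq hq2
    have hq2' : (2 : ℝ) ≤ q := by exact_mod_cast hq2
    rw [Real.norm_eq_abs, id, Real.norm_eq_abs, abs_of_nonneg (Real.log_nonneg (by linarith)),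
      abs_of_nonneg (by linarith)] at hq
    calc (2 * (B + 2) : ℝ) * Real.log (q + 2) ≤
        (2 * (B + 2) : ℝ) * (1 / (2 * (2 * (B + 2))) * (q + 2)) :=
          mul_le_mul_of_nonneg_left hq hA.le
      _ = (q + 2) / 2 := by field_simp
      _ ≤ q := by linarith
  have h3 : ∀ᶠ q : ℕ in atTop, 2 * Real.exp (-κ * q) * (c * (q + 1) ^ B) ≤ 1 / 4 := by
    set r := Real.exp (-κ) with hr
    have hr0 : 0 < r := Real.exp_pos _
    have hr1 : |r| < 1 := by
      rw [abs_of_pos hr0, hr, Real.exp_lt_one_iff]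
      linarith
    have h4 := (tendsto_add_atTop_iff_nat 1).2 (tendsto_pow_const_mul_const_pow_of_abs_lt_one B hr1)
    have h5 := h4.const_mul (2 * c * r⁻¹)
    rw [mul_zero] at h5
    have h6 : ∀ᶠ q : ℕ in atTop, 2 * c * r⁻¹ * (((q + 1 : ℕ) : ℝ) ^ B * r ^ (q + 1)) < 1 / 4 :=
      h5.eventually (gt_mem_nhds (by norm_num))
    filter_upwards [h6] with q hq
    have h7 : Real.exp (-κ * q) = r ^ q := by
      rw [hr, ← Real.exp_nat_mul]; ring_nf
    rw [h7]
    have h8 : 2 * r ^ q * (c * ((q : ℝ) + 1) ^ B) =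
        2 * c * r⁻¹ * (((q + 1 : ℕ) : ℝ) ^ B * r ^ (q + 1)) := by
      rw [pow_succ]
      push_cast
      field_simp
    rw [h8]
    exact hq.le
  have h4 : ∀ᶠ q : ℕ in atTop, c ≤ q / (8 * β) * (q + 2) := by
    have h5 : Tendsto (fun q : ℕ => (q : ℝ)) atTop atTop := tendsto_natCast_atTop_atTop
    filter_upwards [h5.eventually (eventually_ge_atTop (8 * β * |c|))] with q hq
    have h6 : |c| ≤ q / (8 * β) := by
      rw [le_div_iff₀ (by positivity)]
      linarith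
    have h7 : (0 : ℝ) ≤ q / (8 * β) := (abs_nonneg c).trans h6
    have h8 : (0 : ℝ) ≤ q := by positivity
    calc c ≤ |c| := le_abs_self c
      _ ≤ q / (8 * β) * 1 := by rw [mul_one]; exact h6
      _ ≤ q / (8 * β) * (q + 2) := mul_le_mul_of_nonneg_left (by linarith) h7
  obtain ⟨q₀, hq₀⟩ := eventually_atTop.1 (h1.and (h2.and (h3.and h4)))
  exact ⟨q₀, fun q hq => hq₀ q hq⟩

/-- **The core estimate.** -/
lemma core {B q R a : ℕ} {β T c : ℝ} (hβ : 2 ≤ β) (hT0 : 0 ≤ T) (hc : 0 ≤ c)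
    (hT : T ≤ c * (q + 1) ^ B * R)
    (H : ∀ (t s : ℕ) (x : ℝ), 1 ≤ x → (t : ℝ) * R ≤ s * a +
      t * (2 ^ t * ((1 - 1 / (2 * β)) ^ q * T)) +
      q * ((x ^ s)⁻¹ * ((1 + (x + x⁻¹ - 2) / β) ^ q * T)))
    (h1 : 1 ≤ q) (h2 : (2 * (B + 2) : ℝ) * Real.log (q + 2) ≤ q)
    (h3 : 2 * Real.exp (-((1 - Real.log 2) / (2 * β)) * q) * (c * (q + 1) ^ B) ≤ 1 / 4)
    (h4 : c ≤ q / (8 * β) * (q + 2)) :
    (R : ℝ) ≤ 12 * β * Real.sqrt (2 * (B + 2) * Real.log (q + 2) / q) * a := by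
  have hβ0 : 0 < β := by linarith
  have hq : (1 : ℝ) ≤ q := by exact_mod_cast h1
  have hq0 : (0 : ℝ) < q := by linarith
  have hR0 : (0 : ℝ) ≤ R := Nat.cast_nonneg _
  have ha0 : (0 : ℝ) ≤ a := Nat.cast_nonneg _
  set l := Real.log (q + 2) with hl
  have hl1 : 1 ≤ l := by
    rw [hl, Real.le_log_iff_exp_le (by linarith)]
    have := Real.exp_one_lt_d9
    linarith
  set τ := Real.sqrt (2 * (B + 2) * l / q) with hτ
  have hτ2 : τ ^ 2 = 2 * (B + 2) * l / q := Real.sq_sqrt (by positivity)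
  have hqτ2 : q * τ ^ 2 = 2 * (B + 2) * l := by rw [hτ2]; field_simp
  have hτ0 : 0 < τ := Real.sqrt_pos.2 (by positivity)
  have hτ1 : τ ≤ 1 := by
    rw [hτ, Real.sqrt_le_iff]
    refine ⟨by norm_num, ?_⟩
    rw [one_pow, div_le_one hq0]
    exact h2
  have hqτ : 1 ≤ q * τ := by
    have e1 : (1 : ℝ) ≤ (q * τ) ^ 2 := by
      have e2 : ((q : ℝ) * τ) ^ 2 = q * (q * τ ^ 2) := by ring
      rw [e2, hqτ2]
      have e3 : (1 : ℝ) ≤ 2 * (B + 2) * l := by
        have : (0 : ℝ) ≤ B := Nat.cast_nonneg _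
        nlinarith
      nlinarith
    by_contra hlt
    rw [not_le] at hlt
    have : ((q : ℝ) * τ) ^ 2 < 1 := by
      have h0 : 0 ≤ (q : ℝ) * τ := by positivity
      nlinarith
    linarith
  set t := ⌈(q : ℝ) / (2 * β)⌉₊ with ht
  set s := ⌈2 * q * τ⌉₊ with hs
  have ht1 : (q : ℝ) / (2 * β) ≤ t := Nat.le_ceil _
  have ht2 : (t : ℝ) < (q : ℝ) / (2 * β) + 1 := Nat.ceil_lt_add_one (by positivity)
  have hs1 : 2 * q * τ ≤ s := Nat.le_ceil _
  have hs2 : (s : ℝ) < 2 * q * τ + 1 := Nat.ceil_lt_add_one (by positivity)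
  have ht0 : (0 : ℝ) < t := lt_of_lt_of_le (by positivity) ht1
  have h5 := H t s (1 + τ) (by linarith)
  -- the first error term
  have e1 : (2 : ℝ) ^ t * (1 - 1 / (2 * β)) ^ q ≤
      2 * Real.exp (-((1 - Real.log 2) / (2 * β)) * q) := by
    have e2 : (2 : ℝ) ^ t ≤ 2 * Real.exp (Real.log 2 * (q / (2 * β))) := by
      have e3 : (2 : ℝ) ^ t = Real.exp (Real.log 2 * t) := by
        rw [← Real.rpow_natCast, Real.rpow_def_of_pos (by norm_num)]
      have e4 : 2 * Real.exp (Real.log 2 * (q / (2 * β))) =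
          Real.exp (Real.log 2 * ((q : ℝ) / (2 * β) + 1)) := by
        rw [mul_add, Real.exp_add, mul_one, Real.exp_log (by norm_num)]
        ring
      rw [e3, e4]
      apply Real.exp_le_exp.2
      exact mul_le_mul_of_nonneg_left ht2.le (Real.log_nonneg (by norm_num))
    have e5 : (1 - 1 / (2 * β)) ^ q ≤ Real.exp (-(1 / (2 * β)) * q) := by
      have e6 : 1 - 1 / (2 * β) ≤ Real.exp (-(1 / (2 * β))) := by
        have := Real.add_one_le_exp (-(1 / (2 * β)))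
        linarith
      have e7 : 0 ≤ 1 - 1 / (2 * β) := by
        rw [sub_nonneg, div_le_one (by positivity)]
        linarith
      calc (1 - 1 / (2 * β)) ^ q ≤ (Real.exp (-(1 / (2 * β)))) ^ q := pow_le_pow_left₀ e7 e6 _
        _ = Real.exp (-(1 / (2 * β)) * q) := by rw [← Real.exp_nat_mul]; ring_nf
    calc (2 : ℝ) ^ t * (1 - 1 / (2 * β)) ^ q ≤
        (2 * Real.exp (Real.log 2 * (q / (2 * β)))) * Real.exp (-(1 / (2 * β)) * q) := by
          apply mul_le_mul e2 e5 _ (by positivity)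
          apply pow_nonneg
          rw [sub_nonneg, div_le_one (by positivity)]
          linarith
      _ = 2 * Real.exp (-((1 - Real.log 2) / (2 * β)) * q) := by
          rw [mul_assoc, ← Real.exp_add]
          congr 2
          ring
  -- the second error term
  have e2 : ((1 + τ) ^ s)⁻¹ * (1 + (1 + τ + (1 + τ)⁻¹ - 2) / β) ^ q ≤
      ((q + 2 : ℝ) ^ (B + 2))⁻¹ := by
    have g1 : ((1 + τ) ^ s)⁻¹ ≤ Real.exp (-(q * τ ^ 2)) := by
      have g2 : Real.exp (τ / 2) ≤ 1 + τ := by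
        rw [← Real.le_log_iff_exp_le (by linarith)]
        have g3 := Real.one_sub_inv_le_log_of_pos (show (0 : ℝ) < 1 + τ by linarith)
        have g4 : τ / 2 ≤ 1 - (1 + τ)⁻¹ := by
          rw [le_sub_iff_add_le, ← le_sub_iff_add_le', inv_le_comm₀ (by linarith) (by linarith),
            inv_le_comm₀ (by linarith) (by linarith)]
          rw [inv_le_iff_one_le_mul₀ (by linarith)]
          nlinarith
        linarith
      have g5 : Real.exp (q * τ ^ 2) ≤ (1 + τ) ^ s := by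
        calc Real.exp (q * τ ^ 2) ≤ Real.exp (s * (τ / 2)) := by
              apply Real.exp_le_exp.2
              nlinarith
          _ = (Real.exp (τ / 2)) ^ s := by rw [← Real.exp_nat_mul]
          _ ≤ (1 + τ) ^ s := pow_le_pow_left₀ (Real.exp_pos _).le g2 _
      rw [Real.exp_neg]
      exact inv_anti₀ (Real.exp_pos _) g5
    have g6 : (1 + (1 + τ + (1 + τ)⁻¹ - 2) / β) ^ q ≤ Real.exp (q * τ ^ 2 / 2) := by
      have g7 : 0 ≤ 1 + τ + (1 + τ)⁻¹ - 2 ∧ 1 + τ + (1 + τ)⁻¹ - 2 ≤ τ ^ 2 := by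
        have g8 : 1 + τ + (1 + τ)⁻¹ - 2 = τ ^ 2 / (1 + τ) := by
          field_simp
          ring
        rw [g8]
        exact ⟨by positivity, div_le_self (by positivity) (by linarith)⟩
      have g9 : 1 + (1 + τ + (1 + τ)⁻¹ - 2) / β ≤ Real.exp (τ ^ 2 / 2) := by
        have g10 : (1 + τ + (1 + τ)⁻¹ - 2) / β ≤ τ ^ 2 / 2 := by
          rw [div_le_div_iff₀ hβ0 (by norm_num)]
          nlinarith [g7.2, sq_nonneg τ]
        have := Real.add_one_le_exp (τ ^ 2 / 2)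
        linarith
      calc (1 + (1 + τ + (1 + τ)⁻¹ - 2) / β) ^ q ≤ (Real.exp (τ ^ 2 / 2)) ^ q := by
            apply pow_le_pow_left₀ _ g9
            have := div_nonneg g7.1 hβ0.le
            linarith
        _ = Real.exp (q * τ ^ 2 / 2) := by rw [← Real.exp_nat_mul]; ring_nf
    calc ((1 + τ) ^ s)⁻¹ * (1 + (1 + τ + (1 + τ)⁻¹ - 2) / β) ^ q ≤
        Real.exp (-(q * τ ^ 2)) * Real.exp (q * τ ^ 2 / 2) := by
          apply mul_le_mul g1 g6 _ (Real.exp_pos _).le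
          apply pow_nonneg
          have g8 : 1 + τ + (1 + τ)⁻¹ - 2 = τ ^ 2 / (1 + τ) := by
            field_simp
            ring
          rw [g8]
          positivity
      _ = Real.exp (-((B + 2 : ℕ) * l)) := by
          rw [← Real.exp_add]
          congr 1
          push_cast
          linarith [hqτ2]
      _ = ((q + 2 : ℝ) ^ (B + 2))⁻¹ := by
          rw [Real.exp_neg, Real.exp_nat_mul, hl, Real.exp_log (by linarith)]
  have hTR : ∀ y : ℝ, 0 ≤ y → y * T ≤ y * (c * (q + 1) ^ B) * R := by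
    intro y hy
    rw [mul_assoc]
    exact mul_le_mul_of_nonneg_left hT hy
  have f1 : (t : ℝ) * (2 ^ t * ((1 - 1 / (2 * β)) ^ q * T)) ≤ t * (1 / 4 * R) := by
    apply mul_le_mul_of_nonneg_left _ ht0.le
    rw [← mul_assoc]
    calc (2 : ℝ) ^ t * (1 - 1 / (2 * β)) ^ q * T ≤
        2 * Real.exp (-((1 - Real.log 2) / (2 * β)) * q) * T := mul_le_mul_of_nonneg_right e1 hT0
      _ ≤ 2 * Real.exp (-((1 - Real.log 2) / (2 * β)) * q) * (c * (q + 1) ^ B) * R :=
        hTR _ (by positivity)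
      _ ≤ 1 / 4 * R := mul_le_mul_of_nonneg_right h3 hR0
  have f2 : (q : ℝ) * (((1 + τ) ^ s)⁻¹ * ((1 + (1 + τ + (1 + τ)⁻¹ - 2) / β) ^ q * T)) ≤
      t * (1 / 4 * R) := by
    rw [← mul_assoc ((1 + τ) ^ s)⁻¹]
    have f3 : ((1 + τ) ^ s)⁻¹ * (1 + (1 + τ + (1 + τ)⁻¹ - 2) / β) ^ q * T ≤
        ((q + 2 : ℝ) ^ (B + 2))⁻¹ * (c * (q + 1) ^ B) * R :=
      (mul_le_mul_of_nonneg_right e2 hT0).trans (hTR _ (by positivity))
    have f4 : (q : ℝ) * (((q + 2 : ℝ) ^ (B + 2))⁻¹ * (c * (q + 1) ^ B)) ≤ c / (q + 2) := by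
      have f5 : ((q : ℝ) + 1) ^ B ≤ (q + 2) ^ B := pow_le_pow_left₀ (by positivity)
        (by linarith) _
      rw [pow_add, inv_mul_eq_div, ← mul_div_assoc, div_le_div_iff₀ (by positivity)
        (by positivity)]
      have f6 : (q : ℝ) * (c * (q + 1) ^ B) * (q + 2) ≤ q * (c * (q + 2) ^ B) * (q + 2) := by
        gcongr
      refine f6.trans ?_
      have f7 : (q : ℝ) * (c * (q + 2) ^ B) * (q + 2) = c * ((q + 2) ^ B * (q * (q + 2))) := by
        ring
      have f8 : c * (((q : ℝ) + 2) ^ B * (q + 2) ^ 2) = c * ((q + 2) ^ B * ((q + 2) * (q + 2))) := by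
        ring
      rw [f7, f8]
      gcongr
      linarith
    calc (q : ℝ) * (((1 + τ) ^ s)⁻¹ * (1 + (1 + τ + (1 + τ)⁻¹ - 2) / β) ^ q * T)
        ≤ q * (((q + 2 : ℝ) ^ (B + 2))⁻¹ * (c * (q + 1) ^ B) * R) :=
          mul_le_mul_of_nonneg_left f3 hq0.le
      _ = q * (((q + 2 : ℝ) ^ (B + 2))⁻¹ * (c * (q + 1) ^ B)) * R := by ring
      _ ≤ c / (q + 2) * R := mul_le_mul_of_nonneg_right f4 hR0
      _ ≤ t * (1 / 4) * R := by
        apply mul_le_mul_of_nonneg_right _ hR0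
        rw [div_le_iff₀ (by linarith)]
        refine h4.trans ?_
        apply mul_le_mul_of_nonneg_right _ (by linarith)
        calc (q : ℝ) / (8 * β) = q / (2 * β) * (1 / 4) := by field_simp; norm_num
          _ ≤ t * (1 / 4) := mul_le_mul_of_nonneg_right ht1 (by norm_num)
      _ = t * (1 / 4 * R) := by ring
  have f3 : (t : ℝ) * R ≤ 2 * (s * a) := by linarith
  have f4 : (s : ℝ) ≤ 3 * (q * τ) := by linarith
  have f5 : (q : ℝ) / (2 * β) * R ≤ 2 * (3 * (q * τ) * a) := by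
    calc (q : ℝ) / (2 * β) * R ≤ t * R := mul_le_mul_of_nonneg_right ht1 hR0
      _ ≤ 2 * (s * a) := f3
      _ ≤ 2 * (3 * (q * τ) * a) := by
        have := mul_le_mul_of_nonneg_right f4 ha0
        linarith
  have f6 : (q : ℝ) * R ≤ q * (12 * β * τ * a) := by
    have f7 : (q : ℝ) * R = 2 * β * (q / (2 * β) * R) := by field_simp
    rw [f7]
    calc 2 * β * ((q : ℝ) / (2 * β) * R) ≤ 2 * β * (2 * (3 * (q * τ) * a)) :=
          mul_le_mul_of_nonneg_left f5 (by linarith)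
      _ = q * (12 * β * τ * a) := by ring
  exact le_of_mul_le_mul_left f6 hq0

/-- **The rate.** -/
theorem rate {b m B : ℕ} (hb : 2 ≤ b ^ (m + 1)) {R a : ℕ → ℕ}
    (hR : ∀ N, b ^ N ≤ (N + 1) ^ B * R N) (hRa : ∀ N, R N ≤ a N)
    (H : ∀ (N t s : ℕ) (x : ℝ), 1 ≤ x → (t : ℝ) * R N ≤ s * a N +
      t * (2 ^ t * (((b : ℝ) ^ (m + 1) - 1 / 2) ^ (N / (m + 1)) *
        (b : ℝ) ^ (N % (m + 1) + 1))) +
      (N / (m + 1) : ℕ) * ((x ^ s)⁻¹ * ((x + x⁻¹ + ((b : ℝ) ^ (m + 1) - 2)) ^ (N / (m + 1)) *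
        (b : ℝ) ^ (N % (m + 1) + 1)))) :
    ∃ C : ℝ, 0 < C ∧ ∀ N : ℕ,
      (R N : ℝ) ≤ C * Real.sqrt (Real.log (N + 2) / (N + 1)) * a N := by
  set β : ℝ := (b : ℝ) ^ (m + 1) with hβd
  have hβ : (2 : ℝ) ≤ β := by rw [hβd]; exact_mod_cast hb
  have hβ0 : 0 < β := by linarith
  have hb0 : (0 : ℝ) ≤ b := Nat.cast_nonneg _
  set c : ℝ := b * (m + 1) ^ B with hc
  have hc0 : 0 ≤ c := by positivity
  have hlog2 : Real.log 2 < 1 := by
    have := Real.log_two_lt_d9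
    linarith
  obtain ⟨q₀, hq₀⟩ := large B (c := c) (κ := (1 - Real.log 2) / (2 * β)) (β := β)
    (by apply div_pos <;> linarith) hβ0
  set C₁ := 12 * β * Real.sqrt (2 * (B + 2) * (2 * (m + 1))) with hC₁
  set η := Real.sqrt (Real.log 2 / ((m + 1) * (q₀ + 1))) with hη
  have hη0 : 0 < η := Real.sqrt_pos.2 (div_pos (Real.log_pos (by norm_num)) (by positivity))
  refine ⟨C₁ + η⁻¹, by positivity, fun N => ?_⟩
  have ha0 : (0 : ℝ) ≤ a N := Nat.cast_nonneg _
  obtain ⟨q, hq⟩ : ∃ q, q = N / (m + 1) := ⟨_, rfl⟩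
  have hN1 : N < (m + 1) * (q + 1) := by
    rw [hq]
    exact Nat.lt_mul_div_succ N (show 0 < m + 1 by omega)
  have hN1' : (N : ℝ) + 1 ≤ (m + 1) * (q + 1) := by exact_mod_cast hN1
  have hqN : (q : ℝ) ≤ N := by
    rw [hq]; exact_mod_cast Nat.div_le_self _ _
  have hN0 : (0 : ℝ) < (N : ℝ) + 1 := by positivity
  rw [add_mul, add_mul]
  by_cases hqq : q₀ ≤ q
  · obtain ⟨h1, h2, h3, h4⟩ := hq₀ q hqq
    set T : ℝ := β ^ q * (b : ℝ) ^ (N % (m + 1) + 1) with hT
    have hTN : T = (b : ℝ) * (b : ℝ) ^ N := by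
      rw [hT, hβd, ← pow_mul, ← pow_add, ← pow_succ', hq]
      congr 1
      have := Nat.div_add_mod N (m + 1)
      omega
    have hT0 : 0 ≤ T := by positivity
    have hTR : T ≤ c * (q + 1) ^ B * R N := by
      have e1 : (b : ℝ) ^ N ≤ ((N : ℝ) + 1) ^ B * R N := by exact_mod_cast hR N
      have e2 : ((N : ℝ) + 1) ^ B ≤ ((m + 1) * (q + 1)) ^ B :=
        pow_le_pow_left₀ hN0.le hN1' _
      calc T = (b : ℝ) * (b : ℝ) ^ N := hTN
        _ ≤ b * (((m + 1) * (q + 1)) ^ B * R N) := by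
          apply mul_le_mul_of_nonneg_left _ hb0
          exact e1.trans (mul_le_mul_of_nonneg_right e2 (Nat.cast_nonneg _))
        _ = c * (q + 1) ^ B * R N := by rw [hc, mul_pow]; ring
    have h5 := core (B := B) (q := q) (R := R N) (a := a N) hβ hT0 hc0 hTR (by
      intro t s x hx
      have h6 := H N t s x hx
      rw [← hq] at h6
      have e1 : (β - 1 / 2) ^ q * (b : ℝ) ^ (N % (m + 1) + 1) = (1 - 1 / (2 * β)) ^ q * T := by
        rw [hT, ← mul_assoc, ← mul_pow]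
        congr 2
        field_simp
      have e2 : (x + x⁻¹ + (β - 2)) ^ q * (b : ℝ) ^ (N % (m + 1) + 1) =
          (1 + (x + x⁻¹ - 2) / β) ^ q * T := by
        rw [hT, ← mul_assoc, ← mul_pow]
        congr 2
        field_simp
        ring
      rw [e1, e2] at h6
      exact h6) h1 h2 h3 h4
    have h6 : Real.sqrt (2 * (B + 2) * Real.log (q + 2) / q) ≤
        Real.sqrt (2 * (B + 2) * (2 * (m + 1))) *
          Real.sqrt (Real.log (N + 2) / (N + 1)) := by
      rw [← Real.sqrt_mul (by positivity)]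
      apply Real.sqrt_le_sqrt
      have hq1 : (1 : ℝ) ≤ q := by exact_mod_cast h1
      have e1 : Real.log (q + 2) ≤ Real.log (N + 2) :=
        Real.log_le_log (by positivity) (by linarith)
      have e2 : 0 ≤ Real.log ((q : ℝ) + 2) := Real.log_nonneg (by linarith)
      rw [div_le_iff₀ (by linarith)]
      have e3 : (N : ℝ) + 1 ≤ 2 * (m + 1) * q := by
        have : (0 : ℝ) ≤ m := Nat.cast_nonneg _
        nlinarith
      have e4 : Real.log (N + 2) ≤ Real.log (N + 2) / (N + 1) * (2 * (m + 1) * q) := by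
        rw [div_mul_eq_mul_div, le_div_iff₀ hN0]
        exact mul_le_mul_of_nonneg_left e3 (e2.trans e1)
      calc 2 * (B + 2) * Real.log (q + 2) ≤ 2 * (B + 2) * (Real.log (N + 2) / (N + 1) *
            (2 * (m + 1) * q)) := mul_le_mul_of_nonneg_left (e1.trans e4) (by positivity)
        _ = 2 * (B + 2) * (2 * (m + 1)) * (Real.log (N + 2) / (N + 1)) * q := by ring
    have h7 : (R N : ℝ) ≤ C₁ * Real.sqrt (Real.log (N + 2) / (N + 1)) * a N := by
      refine h5.trans ?_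
      apply mul_le_mul_of_nonneg_right _ ha0
      rw [hC₁, mul_assoc (12 * β)]
      exact mul_le_mul_of_nonneg_left h6 (by positivity)
    have h8 : 0 ≤ η⁻¹ * Real.sqrt (Real.log (N + 2) / (N + 1)) * a N := by positivity
    linarith
  · have h1 : η ≤ Real.sqrt (Real.log (N + 2) / (N + 1)) := by
      apply Real.sqrt_le_sqrt
      have e1 : (q : ℝ) + 1 ≤ q₀ + 1 := by
        have : q ≤ q₀ := by omega
        have : (q : ℝ) ≤ q₀ := by exact_mod_cast this
        linarith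
      have e2 : (N : ℝ) + 1 ≤ (m + 1) * (q₀ + 1) :=
        hN1'.trans (mul_le_mul_of_nonneg_left e1 (by positivity))
      have e3 : Real.log 2 ≤ Real.log (N + 2) := Real.log_le_log (by norm_num) (by
        have : (0 : ℝ) ≤ N := Nat.cast_nonneg _
        linarith)
      exact div_le_div₀ (Real.log_nonneg (by
        have : (0 : ℝ) ≤ N := Nat.cast_nonneg _
        linarith)) e3 hN0 e2
    have h2 : (1 : ℝ) ≤ η⁻¹ * Real.sqrt (Real.log (N + 2) / (N + 1)) := by
      rw [inv_mul_eq_div, le_div_iff₀ hη0, one_mul]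
      exact h1
    have h3 : (R N : ℝ) ≤ a N := by exact_mod_cast hRa N
    have h4 : (a N : ℝ) ≤ η⁻¹ * Real.sqrt (Real.log (N + 2) / (N + 1)) * a N := by
      have := mul_le_mul_of_nonneg_right h2 ha0
      linarith
    have h5 : 0 ≤ C₁ * Real.sqrt (Real.log (N + 2) / (N + 1)) * a N := by positivity
    linarith

end Pool.Agent.V7H23.ZD
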