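import Pool.Agent.V7H23.ZD.Lead

/-!
# Counting along the moves
-/

open Finset Module

namespace Pool.Agent.V7H23.ZD

open Classical in
/-- The number of the `i` with `C i w`. -/
noncomputable def num {J I : Type*} [Fintype J] (C : J → I → Prop) (w : I) : ℕ :=
  ∑ i, if C i w then 1 else 0

lemma num_le {J I : Type*} [Fintype J] (C : J → I → Prop) (w : I) :
    num C w ≤ Fintype.card J := by
  unfold num
  refine (Finset.sum_le_card_nsmul univ _ 1 (fun i _ => ?_)).trans ?_
  · split_ifs <;> simp
  · simp

theorem count_le {J I : Type*} [Fintype J] [Fintype I] {A C : J → I → Prop} {σ : J → I → I}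
    (hAC : ∀ i w, A i w → C i (σ i w))
    (hinj : ∀ i w w', A i w → A i w' → σ i w = σ i w' → w = w') {L S : Finset I} (hSL : S ⊆ L)
    (hL : ∀ i, ∀ w ∈ L, A i w → σ i w ∈ L ∧ σ i w ∉ S) :
    ∑ w ∈ S, num C w + ∑ w ∈ L, num A w ≤ ∑ w ∈ L, num C w := by
  classical
  have e1 : ∀ (F : Finset I) (P : J → I → Prop), ∑ w ∈ F, num P w =
      ∑ i, (F.filter fun w => P i w).card := by
    intro F P
    unfold num
    rw [Finset.sum_comm]
    apply Finset.sum_congr rfl
    intro i _
    rw [Finset.card_filter]
  rw [e1, e1, e1, ← Finset.sum_add_distrib]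
  apply Finset.sum_le_sum
  intro i _
  have h1 : ((L.filter fun w => A i w).image (σ i)).card = (L.filter fun w => A i w).card := by
    apply Finset.card_image_of_injOn
    intro w hw w' hw' he
    rw [Finset.mem_coe, Finset.mem_filter] at hw hw'
    exact hinj i w w' hw.2 hw'.2 he
  rw [← h1, ← Finset.card_union_of_disjoint]
  · apply Finset.card_le_card
    intro w hw
    rw [Finset.mem_union, Finset.mem_filter, Finset.mem_image] at hw
    rw [Finset.mem_filter]
    rcases hw with hw | ⟨u, hu, rfl⟩
    · exact ⟨hSL hw.1, hw.2⟩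
    · rw [Finset.mem_filter] at hu
      exact ⟨(hL i u hu.1 hu.2).1, hAC i u hu.2⟩
  · rw [Finset.disjoint_left]
    intro w hw hw'
    rw [Finset.mem_filter] at hw
    rw [Finset.mem_image] at hw'
    obtain ⟨u, hu, rfl⟩ := hw'
    rw [Finset.mem_filter] at hu
    exact (hL i u hu.1 hu.2).2 hw.1

open Classical in
theorem thresh {J I : Type*} [Fintype J] [Fintype I] {A C : J → I → Prop} {σ : J → I → I}
    (hAC : ∀ i w, A i w → C i (σ i w))
    (hinj : ∀ i w w', A i w → A i w' → σ i w = σ i w' → w = w') {L S : Finset I} (hSL : S ⊆ L)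
    (hL : ∀ i, ∀ w ∈ L, A i w → σ i w ∈ L ∧ σ i w ∉ S) (D s : ℕ) :
    D * S.card ≤ s * L.card + D * (univ.filter fun w => num C w < D).card +
      Fintype.card J * (univ.filter fun w => num A w + s < num C w).card := by
  have h0 := count_le hAC hinj hSL hL
  have h1 : D * S.card ≤ ∑ w ∈ S, num C w + D * (univ.filter fun w => num C w < D).card := by
    calc D * S.card = ∑ w ∈ S, D := by rw [Finset.sum_const, smul_eq_mul, mul_comm]
      _ ≤ ∑ w ∈ S, (num C w + D * if num C w < D then 1 else 0) := by
        apply Finset.sum_le_sum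
        intro w _
        split_ifs with h
        · omega
        · omega
      _ = ∑ w ∈ S, num C w + D * ∑ w ∈ S, (if num C w < D then 1 else 0) := by
        rw [Finset.sum_add_distrib, Finset.mul_sum]
      _ ≤ ∑ w ∈ S, num C w + D * (univ.filter fun w => num C w < D).card := by
        apply Nat.add_le_add_left
        apply Nat.mul_le_mul_left
        rw [Finset.card_filter]
        exact Finset.sum_le_sum_of_subset (Finset.subset_univ _)
  have h2 : ∑ w ∈ L, num C w ≤ ∑ w ∈ L, num A w + s * L.card +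
      Fintype.card J * (univ.filter fun w => num A w + s < num C w).card := by
    calc ∑ w ∈ L, num C w ≤ ∑ w ∈ L, (num A w + s +
          Fintype.card J * if num A w + s < num C w then 1 else 0) := by
          apply Finset.sum_le_sum
          intro w _
          have := num_le C w
          split_ifs with h
          · omega
          · omega
      _ = ∑ w ∈ L, num A w + s * L.card + Fintype.card J *
            ∑ w ∈ L, (if num A w + s < num C w then 1 else 0) := by
          rw [Finset.sum_add_distrib, Finset.sum_add_distrib, Finset.mul_sum, Finset.sum_const,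
            smul_eq_mul, mul_comm L.card]
      _ ≤ _ := by
          apply Nat.add_le_add_left
          apply Nat.mul_le_mul_left
          rw [Finset.card_filter]
          exact Finset.sum_le_sum_of_subset (Finset.subset_univ _)
  omega

open Classical in
/-- Few indices with small `num C`. -/
lemma few_one {J I : Type*} [Fintype J] [Fintype I] {A C : J → I → Prop} {b c : ℝ} {q : ℕ}
    (hgen : ∀ x y : ℝ, ∑ w, x ^ num C w * y ^ num A w = (x + y + (b - 2)) ^ q * c) (D : ℕ) :
    ((univ.filter fun w => num C w < D).card : ℝ) ≤ 2 ^ D * ((b - 1 / 2) ^ q * c) := by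
  have h1 : ((univ.filter fun w => num C w < D).card : ℝ) * (1 / 2) ^ D ≤
      ∑ w, (1 / 2 : ℝ) ^ num C w * 1 ^ num A w := by
    rw [← nsmul_eq_mul, ← Finset.sum_const, Finset.sum_filter]
    apply Finset.sum_le_sum
    intro w _
    rw [one_pow, mul_one]
    split_ifs with h
    · exact pow_le_pow_of_le_one (by norm_num) (by norm_num) h.le
    · positivity
  rw [hgen] at h1
  have h2 : (1 / 2 : ℝ) + 1 + (b - 2) = b - 1 / 2 := by ring
  rw [h2] at h1
  have h3 : (0 : ℝ) < 2 ^ D := by positivity
  calc ((univ.filter fun w => num C w < D).card : ℝ)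
      = 2 ^ D * (((univ.filter fun w => num C w < D).card : ℝ) * (1 / 2) ^ D) := by
        rw [one_div, inv_pow]; field_simp
    _ ≤ _ := mul_le_mul_of_nonneg_left h1 h3.le

open Classical in
/-- Few indices with large `num C - num A`. -/
lemma few_two {J I : Type*} [Fintype J] [Fintype I] {A C : J → I → Prop} {b c : ℝ} {q : ℕ}
    (hgen : ∀ x y : ℝ, ∑ w, x ^ num C w * y ^ num A w = (x + y + (b - 2)) ^ q * c) (s : ℕ)
    {x : ℝ} (hx : 1 ≤ x) :
    x ^ s * ((univ.filter fun w => num A w + s < num C w).card : ℝ) ≤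
      (x + x⁻¹ + (b - 2)) ^ q * c := by
  have hx0 : 0 < x := by linarith
  rw [← hgen, mul_comm, ← nsmul_eq_mul, ← Finset.sum_const, Finset.sum_filter]
  apply Finset.sum_le_sum
  intro w _
  split_ifs with h
  · rw [inv_pow, ← div_eq_mul_inv, le_div_iff₀ (by positivity), ← pow_add]
    exact pow_le_pow_right₀ hx (by omega)
  · positivity

/-- Operators given by moves with respect to a basis, with the generating function of the
moves. -/
def WD {K V : Type*} [Field K] [AddCommGroup V] [Module K V] {q : ℕ} (T : Fin q → V →ₗ[K] V)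
    (b c : ℕ) : Prop :=
  ∃ (I : Type) (_ : Fintype I) (_ : LinearOrder I) (B : Basis I K V) (A C : Fin q → I → Prop)
    (σ : Fin q → I → I), (∀ i, Move B (T i) (A i) (σ i)) ∧ (∀ i w, A i w → C i (σ i w)) ∧
    ∀ x y : ℝ, ∑ w, x ^ num C w * y ^ num A w = (x + y + ((b : ℝ) - 2)) ^ q * c

/-- **The bound for the quotient.** -/
theorem WD.bound {K V : Type*} [Field K] [AddCommGroup V] [Module K V] {q : ℕ}
    {T : Fin q → V →ₗ[K] V} {b c : ℕ} (h : WD T b c) {M N : Submodule K V} (hNM : N ≤ M)
    (hT : ∀ i, ∀ x ∈ M, T i x ∈ N) {R : ℕ} (hR : R + finrank K N ≤ finrank K M) (D s : ℕ)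
    {x : ℝ} (hx : 1 ≤ x) :
    (D : ℝ) * R ≤ s * finrank K M + D * (2 ^ D * (((b : ℝ) - 1 / 2) ^ q * c)) +
      q * ((x ^ s)⁻¹ * ((x + x⁻¹ + ((b : ℝ) - 2)) ^ q * c)) := by
  classical
  obtain ⟨I, hI, hI', B, A, C, σ, hm, hAC, hgen⟩ := h
  obtain ⟨L, S, hSL, hL, hS, hc⟩ := card_sub hm hNM hT
  have h1 := thresh hAC (fun i w w' hw hw' he => (hm i).inj hw hw' he) hSL hc D s
  have h2 := few_one hgen D
  have h3 := few_two hgen s hx
  have hx0 : (0 : ℝ) < x ^ s := by positivity
  have h4 : ((univ.filter fun w => num A w + s < num C w).card : ℝ) ≤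
      (x ^ s)⁻¹ * ((x + x⁻¹ + ((b : ℝ) - 2)) ^ q * c) := by
    rw [inv_mul_eq_div, le_div_iff₀ hx0, mul_comm]
    exact h3
  have h5 : R ≤ S.card := by omega
  have h6 : (D : ℝ) * R ≤ s * finrank K M + D * (univ.filter fun w => num C w < D).card +
      q * (univ.filter fun w => num A w + s < num C w).card := by
    have h7 : D * R ≤ s * finrank K M + D * (univ.filter fun w => num C w < D).card +
      q * (univ.filter fun w => num A w + s < num C w).card := by
      rw [Fintype.card_fin, hL] at h1
      exact (Nat.mul_le_mul_left D h5).trans h1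
    exact_mod_cast h7
  refine h6.trans ?_
  have h8 : (D : ℝ) * ((univ.filter fun w => num C w < D).card : ℝ) ≤
      D * (2 ^ D * (((b : ℝ) - 1 / 2) ^ q * c)) := mul_le_mul_of_nonneg_left h2 (by positivity)
  have h9 : (q : ℝ) * ((univ.filter fun w => num A w + s < num C w).card : ℝ) ≤
      q * ((x ^ s)⁻¹ * ((x + x⁻¹ + ((b : ℝ) - 2)) ^ q * c)) :=
    mul_le_mul_of_nonneg_left h4 (by positivity)
  linarith

end Pool.Agent.V7H23.ZD
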