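import Mathlib

/-!
# Leading indices of the elements of a subspace
-/

open Finset Module

namespace Pool.Agent.V7H23.ZD

variable {K V I : Type*} [Field K] [AddCommGroup V] [Module K V] [Fintype I] [LinearOrder I]

/-- The index `w` is the leading index of `x`. -/
def IsLead (B : Basis I K V) (x : V) (w : I) : Prop :=
  B.repr x w ≠ 0 ∧ ∀ u, w < u → B.repr x u = 0

lemma exists_isLead (B : Basis I K V) {x : V} (hx : x ≠ 0) : ∃ w, IsLead B x w := by
  classical
  have h1 : (univ.filter fun w => B.repr x w ≠ 0).Nonempty := by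
    by_contra h
    rw [Finset.not_nonempty_iff_eq_empty, Finset.filter_eq_empty_iff] at h
    apply hx
    apply B.ext_elem
    intro i
    rw [map_zero, Finsupp.zero_apply]
    exact not_not.1 (h (Finset.mem_univ i))
  refine ⟨(univ.filter fun w => B.repr x w ≠ 0).max' h1, ?_, ?_⟩
  · exact (Finset.mem_filter.1 (Finset.max'_mem _ h1)).2
  · intro u hu
    by_contra h
    exact absurd (Finset.le_max' _ u (Finset.mem_filter.2 ⟨Finset.mem_univ _, h⟩)) (not_le.2 hu)

open Classical in
/-- The leading indices of the elements of a subspace. -/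
noncomputable def lead (B : Basis I K V) (M : Submodule K V) : Finset I :=
  univ.filter fun w => ∃ x ∈ M, IsLead B x w

lemma mem_lead {B : Basis I K V} {M : Submodule K V} {w : I} :
    w ∈ lead B M ↔ ∃ x ∈ M, IsLead B x w := by
  unfold lead
  simp

lemma lead_mono {B : Basis I K V} {M N : Submodule K V} (h : M ≤ N) : lead B M ⊆ lead B N := by
  intro w hw
  obtain ⟨x, hx, hxw⟩ := mem_lead.1 hw
  exact mem_lead.2 ⟨x, h hx, hxw⟩

/-- The number of leading indices is the dimension. -/
theorem card_lead (B : Basis I K V) (M : Submodule K V) : (lead B M).card = finrank K M := by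
  classical
  have hfin : Module.Finite K V := Module.Finite.of_basis B
  choose x hx hxw using fun w : lead B M => mem_lead.1 w.2
  have hli : LinearIndependent K (fun w => (⟨x w, hx w⟩ : M)) := by
    rw [Fintype.linearIndependent_iff]
    intro g hg
    by_contra hne
    push Not at hne
    obtain ⟨i0, hi0⟩ := hne
    set S := univ.filter fun i => g i ≠ 0 with hS
    have hSn : S.Nonempty := ⟨i0, Finset.mem_filter.2 ⟨Finset.mem_univ _, hi0⟩⟩
    set m := S.max' hSn with hm
    have hmS : g m ≠ 0 := (Finset.mem_filter.1 (Finset.max'_mem _ hSn)).2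
    have h1 : ∑ i, g i • x i = 0 := by
      have := congrArg (fun y : M => (y : V)) hg
      simpa using this
    have h2 := congrArg (fun y => B.repr y (m : I)) h1
    simp only [map_sum, map_smul, Finsupp.coe_finsetSum, Finset.sum_apply, Finsupp.smul_apply,
      smul_eq_mul, map_zero, Finsupp.zero_apply] at h2
    rw [Finset.sum_eq_single m] at h2
    · exact (hxw m).1 ((mul_eq_zero.1 h2).resolve_left hmS)
    · intro i _ him
      by_cases hi : g i = 0
      · rw [hi, zero_mul]
      · have h3 : i ≤ m := Finset.le_max' _ i (Finset.mem_filter.2 ⟨Finset.mem_univ _, hi⟩)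
        have h4 : i < m := lt_of_le_of_ne h3 him
        rw [(hxw i).2 m h4, mul_zero]
    · intro h; exact absurd (Finset.mem_univ _) h
  have hsp : ∀ w : I, ∀ y ∈ M, IsLead B y w → y ∈ Submodule.span K (Set.range x) := by
    intro w
    induction w using WellFoundedLT.induction with
    | ind w ih =>
      intro y hy hyw
      have hwl : w ∈ lead B M := mem_lead.2 ⟨y, hy, hyw⟩
      set c := B.repr y w / B.repr (x ⟨w, hwl⟩) w with hc
      have hxm : x ⟨w, hwl⟩ ∈ Submodule.span K (Set.range x) :=
        Submodule.subset_span ⟨_, rfl⟩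
      have h0 : B.repr (y - c • x ⟨w, hwl⟩) w = 0 := by
        rw [map_sub, map_smul, Finsupp.sub_apply, Finsupp.smul_apply, smul_eq_mul, hc,
          div_mul_cancel₀ _ (hxw ⟨w, hwl⟩).1, sub_self]
      have h1 : ∀ u, w < u → B.repr (y - c • x ⟨w, hwl⟩) u = 0 := by
        intro u hu
        rw [map_sub, map_smul, Finsupp.sub_apply, Finsupp.smul_apply, hyw.2 u hu,
          (hxw ⟨w, hwl⟩).2 u hu, smul_zero, sub_self]
      by_cases hz : y - c • x ⟨w, hwl⟩ = 0
      · rw [sub_eq_zero] at hz
        rw [hz]
        exact Submodule.smul_mem _ _ hxm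
      · obtain ⟨w', hw'⟩ := exists_isLead B hz
        have hlt : w' < w := by
          rcases lt_trichotomy w' w with h | h | h
          · exact h
          · rw [h] at hw'; exact absurd h0 hw'.1
          · exact absurd (h1 w' h) hw'.1
        have h2 := ih w' hlt _ (M.sub_mem hy (M.smul_mem _ (hx _))) hw'
        have h3 : y = (y - c • x ⟨w, hwl⟩) + c • x ⟨w, hwl⟩ := by abel
        rw [h3]
        exact Submodule.add_mem _ h2 (Submodule.smul_mem _ _ hxm)
  have hspan : M ≤ Submodule.span K (Set.range x) := by
    intro y hy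
    by_cases h0 : y = 0
    · rw [h0]; exact Submodule.zero_mem _
    · obtain ⟨w, hw⟩ := exists_isLead B h0
      exact hsp w y hy hw
  apply le_antisymm
  · have := hli.fintype_card_le_finrank
    rwa [Fintype.card_coe] at this
  · have h1 : finrank K M ≤ finrank K (Submodule.span K (Set.range x)) :=
      Submodule.finrank_mono hspan
    refine h1.trans ?_
    have h2 := finrank_range_le_card (R := K) x
    rw [Fintype.card_coe] at h2
    exact h2

/-- The operator `T` sends the basis vectors with indices in `A` to basis vectors, strictly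
monotonically, and the other ones to zero. -/
structure Move (B : Basis I K V) (T : V →ₗ[K] V) (A : I → Prop) (σ : I → I) : Prop where
  on : ∀ w, A w → T (B w) = B (σ w)
  off : ∀ w, ¬ A w → T (B w) = 0
  mono : ∀ w w', A w → A w' → w < w' → σ w < σ w'

omit [Fintype I] in
lemma Move.inj {B : Basis I K V} {T : V →ₗ[K] V} {A : I → Prop} {σ : I → I}
    (h : Move B T A σ) {w w' : I} (hw : A w) (hw' : A w') (he : σ w = σ w') : w = w' := by
  rcases lt_trichotomy w w' with h1 | h1 | h1
  · exact absurd he (h.mono w w' hw hw' h1).ne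
  · exact h1
  · exact absurd he (h.mono w' w hw' hw h1).ne'

lemma Move.isLead {B : Basis I K V} {T : V →ₗ[K] V} {A : I → Prop} {σ : I → I}
    (h : Move B T A σ) {x : V} {w : I} (hx : IsLead B x w) (hw : A w) :
    IsLead B (T x) (σ w) := by
  classical
  have key : ∀ v, B.repr (T x) v = ∑ u, if A u ∧ σ u = v then B.repr x u else 0 := by
    intro v
    conv_lhs => rw [← B.sum_repr x]
    simp only [map_sum, map_smul, Finsupp.coe_finsetSum, Finset.sum_apply, Finsupp.smul_apply,
      smul_eq_mul]
    apply Finset.sum_congr rfl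
    intro u _
    by_cases hA : A u
    · rw [h.on u hA, B.repr_self, Finsupp.single_apply]
      by_cases hv : σ u = v
      · rw [if_pos hv, if_pos ⟨hA, hv⟩, mul_one]
      · rw [if_neg hv, if_neg (fun h => hv h.2), mul_zero]
    · rw [h.off u hA, map_zero, Finsupp.zero_apply, mul_zero, if_neg (fun h => hA h.1)]
  constructor
  · rw [key, Finset.sum_eq_single w, if_pos ⟨hw, rfl⟩]
    · exact hx.1
    · intro u _ huw
      rw [if_neg]
      rintro ⟨hA, he⟩
      exact huw (h.inj hA hw he)
    · intro h; exact absurd (Finset.mem_univ _) h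
  · intro v hv
    rw [key]
    apply Finset.sum_eq_zero
    intro u _
    by_cases hu : A u ∧ σ u = v
    · rw [if_pos hu]
      apply hx.2
      by_contra hle
      rcases eq_or_lt_of_le (not_lt.1 hle) with he | hlt
      · rw [← hu.2, he] at hv
        exact lt_irrefl _ hv
      · have := h.mono u w hu.1 hw hlt
        rw [hu.2] at this
        exact lt_asymm hv this
    · rw [if_neg hu]

/-- **The indices which are not leading in a subspace `N` of `M` containing the images of `M`
under the operators.** -/
theorem card_sub {J : Type*} [Fintype J] {B : Basis I K V} {T : J → V →ₗ[K] V} {A : J → I → Prop}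
    {σ : J → I → I} (h : ∀ i, Move B (T i) (A i) (σ i)) {M N : Submodule K V} (hNM : N ≤ M)
    (hT : ∀ i, ∀ x ∈ M, T i x ∈ N) :
    ∃ L S : Finset I, S ⊆ L ∧ L.card = finrank K M ∧ S.card + finrank K N = finrank K M ∧
      (∀ i, ∀ w ∈ L, A i w → σ i w ∈ L ∧ σ i w ∉ S) := by
  classical
  refine ⟨lead B M, lead B M \ lead B N, Finset.sdiff_subset, card_lead B M, ?_, ?_⟩
  · rw [← card_lead B N, ← card_lead B M, Finset.card_sdiff_add_card,
      Finset.union_eq_left.2 (lead_mono hNM)]
  · intro i w hw hA
    obtain ⟨x, hx, hxw⟩ := mem_lead.1 hw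
    have h1 : σ i w ∈ lead B N := mem_lead.2 ⟨T i x, hT i x hx, (h i).isLead hxw hA⟩
    refine ⟨lead_mono hNM h1, ?_⟩
    rw [Finset.mem_sdiff]
    exact fun h => h.2 h1

end Pool.Agent.V7H23.ZD
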