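import Pool.Agent.V7H23.ZD.Count

/-!
# Construction of the moves on tensor products
-/

open Finset Module TensorProduct

namespace Pool.Agent.V7H23.ZD

/-- A basis adapted to an operator of rank one with square zero. -/
theorem exists_basis {K U : Type*} [Field K] [AddCommGroup U] [Module K U] [Module.Finite K U]
    {φ : U →ₗ[K] K} {v : U} (hφ : φ ≠ 0) (hv : v ≠ 0) (hφv : φ v = 0) :
    ∃ n, finrank K U = n + 2 ∧ ∃ B : Basis (Fin (n + 2)) K U,
      φ.smulRight v (B 0) = B 1 ∧ ∀ x, x ≠ 0 → φ.smulRight v (B x) = 0 := by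
  obtain ⟨u0, hu0⟩ : ∃ u, φ u ≠ 0 := by
    by_contra h
    push Not at h
    exact hφ (LinearMap.ext h)
  obtain ⟨u, hu⟩ : ∃ u, φ u = 1 := ⟨(φ u0)⁻¹ • u0, by rw [map_smul, smul_eq_mul,
    inv_mul_cancel₀ hu0]⟩
  set v' : LinearMap.ker φ := ⟨v, LinearMap.mem_ker.2 hφv⟩ with hv'
  have hv0 : v' ≠ 0 := fun h => hv (congrArg Subtype.val h)
  obtain ⟨N, hN⟩ := Submodule.exists_isCompl (Submodule.span K {v'})
  obtain ⟨n, hn⟩ : ∃ n, n = finrank K N := ⟨_, rfl⟩
  let b0 : Basis (Fin n) K N := hn ▸ Module.finBasis K N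
  let b1 : Basis (Fin (n + 1)) K (LinearMap.ker φ) := Basis.mkFinCons v' b0
    (by
      intro c x hx h
      by_contra hc
      have h1 : c • v' ∈ N := by
        have : c • v' = -x := by rw [eq_neg_iff_add_eq_zero]; exact h
        rw [this]; exact N.neg_mem hx
      have h2 : v' ∈ N := by
        have := N.smul_mem c⁻¹ h1
        rwa [smul_smul, inv_mul_cancel₀ hc, one_smul] at this
      have h3 := hN.disjoint
      rw [Submodule.disjoint_def] at h3
      exact hv0 (h3 v' (Submodule.mem_span_singleton_self _) h2))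
    (by
      intro z
      have h1 : z ∈ Submodule.span K {v'} ⊔ N := by rw [hN.sup_eq_top]; exact Submodule.mem_top
      obtain ⟨s, hs, t, ht, rfl⟩ := Submodule.mem_sup.1 h1
      obtain ⟨c, rfl⟩ := Submodule.mem_span_singleton.1 hs
      refine ⟨-c, ?_⟩
      have : c • v' + t + -c • v' = t := by rw [neg_smul]; abel
      rw [this]; exact ht)
  let b2 : Basis (Fin (n + 2)) K U := Basis.mkFinCons u b1
    (by
      intro c x hx h
      have h1 := congrArg φ h
      rw [map_add, map_smul, hu, LinearMap.mem_ker.1 hx, map_zero, add_zero, smul_eq_mul,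
        mul_one] at h1
      exact h1)
    (by
      intro z
      refine ⟨-φ z, ?_⟩
      rw [LinearMap.mem_ker, map_add, map_smul, hu, smul_eq_mul, mul_one, add_neg_cancel])
  have e0 : b2 0 = u := by
    change (Basis.mkFinCons u b1 _ _) 0 = u
    rw [Basis.coe_mkFinCons, Fin.cons_zero]
  have e1 : b2 1 = v := by
    change (Basis.mkFinCons u b1 _ _) 1 = v
    rw [Basis.coe_mkFinCons]
    change ((b1 0 : LinearMap.ker φ) : U) = v
    change ((Basis.mkFinCons v' b0 _ _ 0 : LinearMap.ker φ) : U) = v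
    rw [Basis.coe_mkFinCons, Fin.cons_zero]
  refine ⟨n, ?_, b2, ?_, ?_⟩
  · have := Module.finrank_eq_card_basis b2
    rwa [Fintype.card_fin] at this
  · rw [LinearMap.smulRight_apply, e0, e1, hu, one_smul]
  · intro x hx
    obtain ⟨y, rfl⟩ := Fin.exists_succ_eq.2 hx
    have h1 : b2 y.succ = ((b1 y : LinearMap.ker φ) : U) := by
      change (Basis.mkFinCons u b1 _ _) y.succ = _
      rw [Basis.coe_mkFinCons, Fin.cons_succ]
      rfl
    rw [LinearMap.smulRight_apply, h1, LinearMap.mem_ker.1 (b1 y).2, zero_smul]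

/-- No operators. -/
lemma WD.base {K V : Type*} [Field K] [AddCommGroup V] [Module K V] [Module.Finite K V]
    (T : Fin 0 → V →ₗ[K] V) (b : ℕ) : WD T b (finrank K V) := by
  refine ⟨Fin (finrank K V), inferInstance, inferInstance, Module.finBasis K V,
    fun i => i.elim0, fun i => i.elim0, fun i => i.elim0, fun i => i.elim0, fun i => i.elim0, ?_⟩
  intro x y
  have h1 : ∀ (C : Fin 0 → Fin (finrank K V) → Prop) w, num C w = 0 := by
    intro C w
    simp [num]
  simp [h1]

lemma num_cons {q : ℕ} {I : Type*} (P : I → Prop) (C : Fin q → I → Prop) (w : I)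
    [Decidable (P w)] :
    num (Fin.cons P C : Fin (q + 1) → I → Prop) w = (if P w then 1 else 0) + num C w := by
  classical
  unfold num
  rw [Fin.sum_univ_succ]
  simp only [Fin.cons_zero, Fin.cons_succ]

/-- The product with a space with a nilpotent operator of rank one. -/
theorem WD.prod {K U V P : Type*} [Field K] [AddCommGroup U] [Module K U] [AddCommGroup V]
    [Module K V] [AddCommGroup P] [Module K P] {n : ℕ} (BU : Basis (Fin (n + 2)) K U)
    {T0 : U →ₗ[K] U} (h0 : T0 (BU 0) = BU 1) (h1 : ∀ x, x ≠ 0 → T0 (BU x) = 0) {q c : ℕ}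
    {T : Fin q → V →ₗ[K] V} (h : WD T (n + 2) c) (κ : U ⊗[K] V ≃ₗ[K] P) {S0 : P →ₗ[K] P}
    {S : Fin q → P →ₗ[K] P} (hS0 : ∀ u v, S0 (κ (u ⊗ₜ v)) = κ (T0 u ⊗ₜ v))
    (hS : ∀ i u v, S i (κ (u ⊗ₜ v)) = κ (u ⊗ₜ T i v)) :
    WD (Fin.cons S0 S : Fin (q + 1) → P →ₗ[K] P) (n + 2) c := by
  classical
  obtain ⟨I, hI, hI', B, A, C, σ, hm, hAC, hgen⟩ := h
  let BP : Basis (Fin (n + 2) ×ₗ I) K P := ((BU.tensorProduct B).map κ).reindex toLex
  have hBP : ∀ x w, BP (toLex (x, w)) = κ (BU x ⊗ₜ B w) := by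
    intro x w
    change (((BU.tensorProduct B).map κ).reindex toLex) (toLex (x, w)) = _
    rw [Basis.reindex_apply, Basis.map_apply]
    change κ ((BU.tensorProduct B) (x, w)) = _
    rw [Basis.tensorProduct_apply]
  refine ⟨Fin (n + 2) ×ₗ I, inferInstance, inferInstance, BP,
    Fin.cons (fun p => (ofLex p).1 = 0) (fun i p => A i (ofLex p).2),
    Fin.cons (fun p => (ofLex p).1 = 1) (fun i p => C i (ofLex p).2),
    Fin.cons (fun p => toLex (1, (ofLex p).2)) (fun i p => toLex ((ofLex p).1, σ i (ofLex p).2)),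
    ?_, ?_, ?_⟩
  · intro i
    refine Fin.cases ?_ (fun i => ?_) i
    · simp only [Fin.cons_zero]
      refine ⟨?_, ?_, ?_⟩
      · intro p hp
        obtain ⟨x, w, rfl⟩ : ∃ x w, p = toLex (x, w) := ⟨(ofLex p).1, (ofLex p).2, rfl⟩
        change x = 0 at hp
        subst hp
        change S0 (BP (toLex (0, w))) = BP (toLex (1, w))
        rw [hBP, hBP, hS0, h0]
      · intro p hp
        obtain ⟨x, w, rfl⟩ : ∃ x w, p = toLex (x, w) := ⟨(ofLex p).1, (ofLex p).2, rfl⟩
        change ¬ x = 0 at hp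
        rw [hBP, hS0, h1 x hp, TensorProduct.zero_tmul, map_zero]
      · intro p p' hp hp' hlt
        obtain ⟨x, w, rfl⟩ : ∃ x w, p = toLex (x, w) := ⟨(ofLex p).1, (ofLex p).2, rfl⟩
        obtain ⟨x', w', rfl⟩ : ∃ x w, p' = toLex (x, w) := ⟨(ofLex p').1, (ofLex p').2, rfl⟩
        change x = 0 at hp
        change x' = 0 at hp'
        subst hp
        subst hp'
        rw [Prod.Lex.toLex_lt_toLex] at hlt
        change toLex ((1 : Fin (n + 2)), w) < toLex ((1 : Fin (n + 2)), w')
        rw [Prod.Lex.toLex_lt_toLex]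
        rcases hlt with h | h
        · exact absurd h (lt_irrefl _)
        · exact Or.inr ⟨rfl, h.2⟩
    · simp only [Fin.cons_succ]
      refine ⟨?_, ?_, ?_⟩
      · intro p hp
        obtain ⟨x, w, rfl⟩ : ∃ x w, p = toLex (x, w) := ⟨(ofLex p).1, (ofLex p).2, rfl⟩
        change A i w at hp
        change S i (BP (toLex (x, w))) = BP (toLex (x, σ i w))
        rw [hBP, hBP, hS, (hm i).on w hp]
      · intro p hp
        obtain ⟨x, w, rfl⟩ : ∃ x w, p = toLex (x, w) := ⟨(ofLex p).1, (ofLex p).2, rfl⟩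
        change ¬ A i w at hp
        rw [hBP, hS, (hm i).off w hp, TensorProduct.tmul_zero, map_zero]
      · intro p p' hp hp' hlt
        obtain ⟨x, w, rfl⟩ : ∃ x w, p = toLex (x, w) := ⟨(ofLex p).1, (ofLex p).2, rfl⟩
        obtain ⟨x', w', rfl⟩ : ∃ x w, p' = toLex (x, w) := ⟨(ofLex p').1, (ofLex p').2, rfl⟩
        change A i w at hp
        change A i w' at hp'
        rw [Prod.Lex.toLex_lt_toLex] at hlt
        change toLex (x, σ i w) < toLex (x', σ i w')
        rw [Prod.Lex.toLex_lt_toLex]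
        rcases hlt with h | h
        · exact Or.inl h
        · exact Or.inr ⟨h.1, (hm i).mono w w' hp hp' h.2⟩
  · intro i
    refine Fin.cases ?_ (fun i => ?_) i
    · simp only [Fin.cons_zero]
      intro p _
      rfl
    · simp only [Fin.cons_succ]
      intro p hp
      exact hAC i _ hp
  · intro x y
    have e1 : ∀ (p : Fin (n + 2) × I), num (Fin.cons (fun p => (ofLex p).1 = 1)
        (fun i p => C i (ofLex p).2) : Fin (q + 1) → (Fin (n + 2) ×ₗ I) → Prop) (toLex p) =
        (if p.1 = 1 then 1 else 0) + num C p.2 := fun p => num_cons _ _ _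
    have e2 : ∀ (p : Fin (n + 2) × I), num (Fin.cons (fun p => (ofLex p).1 = 0)
        (fun i p => A i (ofLex p).2) : Fin (q + 1) → (Fin (n + 2) ×ₗ I) → Prop) (toLex p) =
        (if p.1 = 0 then 1 else 0) + num A p.2 := fun p => num_cons _ _ _
    have e3 : ∀ F : (Fin (n + 2) ×ₗ I) → ℝ, ∑ p, F p = ∑ p : Fin (n + 2) × I, F (toLex p) :=
      fun F => ((toLex : Fin (n + 2) × I ≃ Fin (n + 2) ×ₗ I).sum_comp F).symm
    rw [e3]
    simp only [e1, e2]
    rw [Fintype.sum_prod_type]
    have e4 : ∀ t : Fin (n + 2), ∑ w : I, x ^ ((if t = 1 then 1 else 0) + num C w) *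
        y ^ ((if t = 0 then 1 else 0) + num A w) =
        (x ^ (if t = 1 then 1 else 0) * y ^ (if t = 0 then 1 else 0)) *
          ((x + y + (((n + 2 : ℕ) : ℝ) - 2)) ^ q * c) := by
      intro t
      rw [← hgen, Finset.mul_sum]
      apply Finset.sum_congr rfl
      intro w _
      rw [pow_add, pow_add]
      ring
    simp only [e4]
    rw [← Finset.sum_mul, Fin.sum_univ_succ, Fin.sum_univ_succ]
    have e5 : ∀ i : Fin n, (x ^ (if (i.succ.succ : Fin (n + 2)) = 1 then 1 else 0) *
        y ^ (if (i.succ.succ : Fin (n + 2)) = 0 then 1 else 0) : ℝ) = 1 := by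
      intro i
      rw [if_neg (Fin.succ_ne_zero _), if_neg]
      · simp
      · intro h
        have := congrArg Fin.val h
        simp at this
    rw [Finset.sum_congr rfl (fun i _ => e5 i)]
    have e6 : (if (0 : Fin (n + 2)) = 1 then 1 else 0) = 0 := by
      rw [if_neg]
      intro h
      have := congrArg Fin.val h
      simp at this
    have e7 : (Fin.succ (0 : Fin (n + 1))) = (1 : Fin (n + 2)) := rfl
    rw [e6, e7, if_pos rfl, if_pos rfl, if_neg (by
      intro h
      have := congrArg Fin.val h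
      simp at this)]
    rw [Finset.sum_const, Finset.card_univ, Fintype.card_fin]
    push_cast
    simp only [nsmul_eq_mul]
    ring

end Pool.Agent.V7H23.ZD
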