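import Pool.Agent.V7H23.ZO.Fin
import Pool.Agent.V7H23.ZD.Tens

/-!
# Numerically trivial algebraic operators
-/

open CategoryTheory AlgebraicGeometry Finset

universe u v

namespace Pool.Agent.V7H23.ZD

open Pool.Agent.H914 Pool.Agent.H914.VarClass Pool.Agent.H914.VarClass.Obj
  Pool.Agent.H914.WeilCohomology Pool.Agent.H281R3.HT Pool.Agent.W552 Pool.Agent.W539.Ker
  Pool.Agent.V7H23.ZO

variable {k : Type u} [Field k] {𝒱 : VarClass k} {ops : CycleOps 𝒱}
  {W : WeilCohomology.{u, v} ops} {X Y Z : 𝒱.Obj}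

/-- A sum of algebraic classes which is orthogonal to all algebraic classes. -/
def NT (W : WeilCohomology.{u, v} ops) (X : 𝒱.Obj) (x : W.H X) : Prop :=
  AS W X x ∧ ∀ y, AS W X y → W.tr X (x * y) = 0

/-- A pull-back times an algebraic class is numerically trivial. -/
lemma NT.map_mul {x : W.H Y} (h : NT W Y x) (g : X ⟶ Y) {d : W.H X} (hd : AS W X d) :
    NT W X (W.map g x * d) := by
  refine ⟨(h.1.map g).mul hd, fun y hy => ?_⟩
  rw [mul_assoc, (h.1.map g).comm, ← W.tr_push, ((hd.mul hy).push g).comm]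
  exact h.2 _ ((hd.mul hy).push g)

/-- The operators given by numerically trivial classes. -/
def NOp (W : WeilCohomology.{u, v} ops) (X Y : 𝒱.Obj) (u : W.H X →ₗ[W.K] W.H Y) : Prop :=
  ∃ c, NT W (X.prod Y) c ∧ W.corr c = u

lemma NOp.aop {u : W.H X →ₗ[W.K] W.H Y} (h : NOp W X Y u) : AOp W X Y u := by
  obtain ⟨c, hc, rfl⟩ := h
  exact ⟨c, hc.1, rfl⟩

lemma NOp.apply {u : W.H X →ₗ[W.K] W.H Y} (h : NOp W X Y u) {x : W.H X} (hx : AS W X x) :
    NT W Y (u x) := by
  refine ⟨h.aop.apply hx, fun y hy => ?_⟩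
  obtain ⟨c, hc, rfl⟩ := h
  rw [corr_apply, W.tr_push, mul_assoc]
  exact hc.2 _ ((hx.map _).mul (hy.map _))

lemma corr_ext_AS (c : W.H (X.prod X)) {d : W.H (Y.prod Y)} (hd : AS W (Y.prod Y) d) :
    W.corr (W.map (q1 X Y) c * W.map (q2 X Y) d) = extOp W (W.corr c) (W.corr d) := by
  apply ext_kunneth_lin
  intro a b
  rw [extOp_tmul]
  refine AS.ind (p := fun d => W.corr (W.map (q1 X Y) c * W.map (q2 X Y) d)
    (W.map (fst X Y) a * W.map (snd X Y) b) =
      W.map (fst X Y) (W.corr c a) * W.map (snd X Y) (W.corr d b)) ?_ ?_ hd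
  · intro j d hd
    exact corr_ext c (alg_gr hd) a b
  · intro d d' hd hd'
    rw [map_add, mul_add, corr_add, LinearMap.add_apply, hd, hd', corr_add,
      LinearMap.add_apply, map_add, mul_add]

/-- The external product with an algebraic operator on the right. -/
lemma NOp.ext_left {u : Module.End W.K (W.H X)} {u' : Module.End W.K (W.H Y)}
    (h : NOp W X X u) (h' : AOp W Y Y u') :
    NOp W (X.prod Y) (X.prod Y) (extOp W u u') := by
  obtain ⟨c, hc, rfl⟩ := h
  obtain ⟨d, hd, rfl⟩ := h'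
  exact ⟨_, hc.map_mul (q1 X Y) (hd.map _), corr_ext_AS c hd⟩

/-- The external product with an algebraic operator on the left. -/
lemma NOp.ext_right {u : Module.End W.K (W.H X)} {u' : Module.End W.K (W.H Y)}
    (h : AOp W X X u) (h' : NOp W Y Y u') :
    NOp W (X.prod Y) (X.prod Y) (extOp W u u') := by
  obtain ⟨c, hc, rfl⟩ := h
  obtain ⟨d, hd, rfl⟩ := h'
  refine ⟨_, ?_, corr_ext_AS c hd.1⟩
  have h1 := hd.map_mul (q2 X Y) (hc.map (q1 X Y))
  rwa [(hd.1.map (q2 X Y)).comm] at h1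

/-- The operator `a ↦ ⟨a, e⟩ v` for a numerically trivial class `v`. -/
lemma ro_nop {D : X.Cycles} {f : Module.End W.K (W.H X)} (F : Fr W X D f) {e v : W.H X}
    (he : AS W X e) (hv : NT W X v) : NOp W X X (ro W X D f e v) := by
  refine ⟨H281R3.HT.ext W (st W X D f e) v, ?_, ?_⟩
  · have h1 := hv.map_mul (snd X X) ((F.st_AS he).map (fst X X))
    rwa [(hv.1.map (snd X X)).comm] at h1
  · apply LinearMap.ext
    intro a
    rw [corr_apply, H281R3.HT.ext, mul_assoc, (hv.1.map _).comm, ← mul_assoc, ← map_mul,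
      push_snd, ro_apply, bf_apply, (F.st_AS he).comm]

/-- A polarized variety with numerically trivial operators of degree zero given by moves. -/
def HasNil (W : WeilCohomology.{u, v} ops) (X : 𝒱.Obj) (D : X.Cycles) (q b c : ℕ) : Prop :=
  ∃ f : Module.End W.K (W.H X), Fr W X D f ∧ ∃ T : Fin q → Module.End W.K (W.H X),
    (∀ i, NOp W X X (T i)) ∧
    (∀ i a, wt (W.isInternal X) X.dim (T i a) = T i (wt (W.isInternal X) X.dim a)) ∧
    WD T b c

lemma HasNil.base {D : X.Cycles} {f : Module.End W.K (W.H X)} (F : Fr W X D f) (b : ℕ) :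
    HasNil W X D 0 b (Module.finrank W.K (W.H X)) :=
  ⟨f, F, fun i => i.elim0, fun i => i.elim0, fun i => i.elim0, WD.base _ _⟩

lemma wt_ext {u : Module.End W.K (W.H X)} {t : Module.End W.K (W.H Y)}
    (hu : ∀ a, wt (W.isInternal X) X.dim (u a) = u (wt (W.isInternal X) X.dim a))
    (ht : ∀ a, wt (W.isInternal Y) Y.dim (t a) = t (wt (W.isInternal Y) Y.dim a))
    (a : W.H (X.prod Y)) :
    wt (W.isInternal (X.prod Y)) (X.prod Y).dim (extOp W u t a) =
      extOp W u t (wt (W.isInternal (X.prod Y)) (X.prod Y).dim a) := by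
  have h1 : wt (W.isInternal (X.prod Y)) (X.prod Y).dim ∘ₗ extOp W u t =
      extOp W u t ∘ₗ wt (W.isInternal (X.prod Y)) (X.prod Y).dim := by
    rw [wt_prod]
    apply ext_kunneth_lin
    intro a b
    rw [LinearMap.comp_apply, LinearMap.comp_apply, extOp_tmul, extSum_tmul, extSum_tmul,
      map_add, extOp_tmul, extOp_tmul, hu, ht]
  exact congrArg (fun F => F a) h1

/-- **The step.** -/
theorem HasNil.prod {D : X.Cycles} {E : Y.Cycles} {f : Module.End W.K (W.H X)}
    (F : Fr W X D f) {T0 : Module.End W.K (W.H X)} (h0 : NOp W X X T0)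
    (hw : ∀ a, wt (W.isInternal X) X.dim (T0 a) = T0 (wt (W.isInternal X) X.dim a)) {n : ℕ}
    (B : Module.Basis (Fin (n + 2)) W.K (W.H X)) (hB0 : T0 (B 0) = B 1)
    (hB : ∀ x, x ≠ 0 → T0 (B x) = 0) {q c : ℕ} (hQ : HasNil W Y E q (n + 2) c) :
    HasNil W (X.prod Y) (ops.pull (fst X Y) D + ops.pull (snd X Y) E) (q + 1) (n + 2) c := by
  obtain ⟨g, G, T, hT, hwT, hWD⟩ := hQ
  refine ⟨extSum W f g, F.prod G, Fin.cons (extOp W T0 1) (fun i => extOp W 1 (T i)), ?_, ?_, ?_⟩
  · intro i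
    refine Fin.cases ?_ (fun i => ?_) i
    · rw [Fin.cons_zero]
      exact h0.ext_left AOp.one
    · rw [Fin.cons_succ]
      exact NOp.ext_right AOp.one (hT i)
  · intro i
    refine Fin.cases ?_ (fun i => ?_) i
    · rw [Fin.cons_zero]
      exact wt_ext hw (fun a => rfl)
    · rw [Fin.cons_succ]
      exact wt_ext (fun a => rfl) (hwT i)
  · refine WD.prod B hB0 hB hWD (kappa W X Y) ?_ ?_
    · intro u v
      rw [kappa_tmul, kappa_tmul]
      exact extOp_tmul _ _ _ _
    · intro i u v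
      rw [kappa_tmul, kappa_tmul]
      exact extOp_tmul _ _ _ _

/-- Powers. -/
lemma HasNil.tw {P R : Polarized 𝒱} {f : Module.End W.K (W.H P.X)} (F : Fr W P.X P.D f)
    {T0 : Module.End W.K (W.H P.X)} (h0 : NOp W P.X P.X T0)
    (hw : ∀ a, wt (W.isInternal P.X) P.X.dim (T0 a) = T0 (wt (W.isInternal P.X) P.X.dim a))
    {n : ℕ} (B : Module.Basis (Fin (n + 2)) W.K (W.H P.X)) (hB0 : T0 (B 0) = B 1)
    (hB : ∀ x, x ≠ 0 → T0 (B x) = 0) {g : Module.End W.K (W.H R.X)} (G : Fr W R.X R.D g)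
    (q : ℕ) : HasNil W (tw ops P R q).X (tw ops P R q).D q (n + 2)
      (Module.finrank W.K (W.H R.X)) := by
  induction q with
  | zero => exact HasNil.base G _
  | succ q ih => exact HasNil.prod F h0 hw B hB0 hB ih

end Pool.Agent.V7H23.ZD
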