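import Pool.Agent.V7H23.ZD.Spn

/-!
# The powers of a variety with a numerically trivial class
-/

open CategoryTheory AlgebraicGeometry Finset

universe u v

namespace Pool.Agent.V7H23.ZD

open Pool.Agent.H914 Pool.Agent.H914.VarClass Pool.Agent.H914.VarClass.Obj
  Pool.Agent.H914.WeilCohomology Pool.Agent.H281R3.HT Pool.Agent.W552 Pool.Agent.W539.Ker
  Pool.Agent.V7H23.ZO

variable {k : Type u} [Field k] {𝒱 : VarClass k} {ops : CycleOps 𝒱}
  {W : WeilCohomology.{u, v} ops} {X Y Z : 𝒱.Obj}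

/-- An operator adapted to a numerically trivial class. -/
theorem exists_op {D : X.Cycles} {f : Module.End W.K (W.H X)} (F : Fr W X D f)
    (hp : Pos1 W X D f) {j : ℕ} (hj : j ≤ X.dim) {v : W.H X} (hv : v ∈ W.gr X (2 * j))
    (hv0 : v ≠ 0) (hvt : NT W X v) :
    ∃ T0 : Module.End W.K (W.H X), NOp W X X T0 ∧
      (∀ a, wt (W.isInternal X) X.dim (T0 a) = T0 (wt (W.isInternal X) X.dim a)) ∧
      ∃ n, Module.finrank W.K (W.H X) = n + 2 ∧ ∃ B : Module.Basis (Fin (n + 2)) W.K (W.H X),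
        T0 (B 0) = B 1 ∧ ∀ x, x ≠ 0 → T0 (B x) = 0 := by
  set L := LinearMap.mulLeft W.K (W.cl X D) with hL
  have hf := prim_fund F
  have hpf := pairing_fund_pos F hp
  have hu1 : (L ^ j) (1 : W.H X) = (L ^ j) (W.cl X X.V.fundCycle) := by rw [W.cl_fund]
  obtain ⟨p, hp0, huu⟩ : ∃ p : ℚ, 0 < p ∧ bf W X D f ((L ^ j) 1) ((L ^ j) 1) = p := by
    have h1 := bf_same F (n := 0) (by omega) hf hf (j := j) (by omega)
    rw [hu1]
    exact ⟨_, by positivity, h1⟩
  have huA : AS W X ((L ^ j) 1) := by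
    rw [hu1, ← cl_divPow]
    exact AS.of ⟨_, divPow_mem F.hD j X.V.fundCycle_mem, rfl⟩
  have hug : (L ^ j) (1 : W.H X) ∈ W.gr X (2 * j) := by
    have := pow_L_mem (mulLeft_isHom F.hD) (W.one_mem X) j
    rwa [zero_add] at this
  refine ⟨ro W X D f ((L ^ j) 1) v, ro_nop F huA hvt, ?_, ?_⟩
  · intro a
    rw [ro_apply, ro_apply, map_smul, Fr.wt_gr hv, wt_self F, Fr.wt_gr hug, map_smul, smul_smul,
      smul_eq_mul, mul_comm]
  · refine exists_basis (φ := (bf W X D f).flip ((L ^ j) 1)) ?_ hv0 ?_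
    · intro h0
      have h1 := congrArg (fun F => F ((L ^ j) 1)) h0
      change bf W X D f ((L ^ j) 1) ((L ^ j) 1) = 0 at h1
      rw [huu] at h1
      have : p = 0 := by exact_mod_cast h1
      exact hp0.ne' this
    · change bf W X D f v ((L ^ j) 1) = 0
      rw [bf_apply]
      exact hvt.2 _ (F.st_AS huA)

lemma pw_tw1 (P : Polarized 𝒱) (m r q : ℕ) :
    PEq W (pw ops P ((m + 1) * q + r)) (tw ops (pw ops P m) (pw ops P r) q) := by
  induction q with
  | zero => rw [mul_zero, zero_add]; exact PEq.refl _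
  | succ q ih =>
    rw [show (m + 1) * (q + 1) + r = m + ((m + 1) * q + r) + 1 by ring]
    exact (pw_split P _ _).trans ((PEq.refl _).prod ih)

/-- **The inequality on the powers.** -/
theorem total_le {P : Polarized 𝒱} {f : Module.End W.K (W.H P.X)} (F : Fr W P.X P.D f)
    (hp : Pos1 W P.X P.D f) {m j : ℕ}
    (hj : j ≤ (pw ops P m).X.dim) {v : W.H (pw ops P m).X}
    (hv : v ∈ W.gr (pw ops P m).X (2 * j)) (hv0 : v ≠ 0) (hvt : NT W (pw ops P m).X v) (N : ℕ)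
    (t s : ℕ) {x : ℝ} (hx : 1 ≤ x) :
    2 ≤ Module.finrank W.K (W.H P.X) ^ (m + 1) ∧
    (t : ℝ) * total W (pw ops P N).X (pw ops P N).D ≤
      s * clsNum W (pw ops P N).X (pw ops P N).D +
      t * (2 ^ t * (((Module.finrank W.K (W.H P.X) : ℝ) ^ (m + 1) - 1 / 2) ^ (N / (m + 1)) *
        (Module.finrank W.K (W.H P.X) : ℝ) ^ (N % (m + 1) + 1))) +
      (N / (m + 1) : ℕ) * ((x ^ s)⁻¹ * ((x + x⁻¹ +
        ((Module.finrank W.K (W.H P.X) : ℝ) ^ (m + 1) - 2)) ^ (N / (m + 1)) *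
        (Module.finrank W.K (W.H P.X) : ℝ) ^ (N % (m + 1) + 1))) := by
  have G := fr_gpw F m
  obtain ⟨T0, h0, hw, n, hn, B, hB0, hB⟩ := exists_op G (pos1_gpw F hp m) hj hv hv0 hvt
  have h1 := HasNil.tw (R := pw ops P (N % (m + 1))) G h0 hw B hB0 hB (fr_gpw F (N % (m + 1)))
    (N / (m + 1))
  have h2 := pw_tw1 (W := W) P m (N % (m + 1)) (N / (m + 1))
  rw [Nat.div_add_mod] at h2
  rw [finrank_pw] at hn
  rw [← hn, finrank_pw] at h1
  have hD1 := (fr_gpw F N).hD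
  have hD2 := isCyc_tw (ops := ops) G.hD (fr_gpw F (N % (m + 1))).hD (N / (m + 1))
  have h3 := h2.total_eq hD1 hD2
  obtain ⟨w, hw01, hwd⟩ : ∃ w : ℤ, (w = 0 ∨ w = 1) ∧
      (2 : ℤ) ∣ (tw ops (pw ops P m) (pw ops P (N % (m + 1))) (N / (m + 1))).X.dim + w := by
    rcases Nat.even_or_odd' (tw ops (pw ops P m) (pw ops P (N % (m + 1))) (N / (m + 1))).X.dim
      with ⟨c, hc | hc⟩
    · exact ⟨0, Or.inl rfl, by omega⟩
    · exact ⟨1, Or.inr rfl, by omega⟩
  have h4 := h1.bound hw01 hwd t s hx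
  refine ⟨by omega, ?_⟩
  rw [h3]
  have h5 : Module.finrank W.K (MK W (tw ops (pw ops P m) (pw ops P (N % (m + 1)))
      (N / (m + 1))).X w) ≤ clsNum W (pw ops P N).X (pw ops P N).D :=
    (PMap.finrank_le h2.1 w).trans (finrank_MK_le (fr_gpw F N) w)
  have h6 : (Module.finrank W.K (MK W (tw ops (pw ops P m) (pw ops P (N % (m + 1)))
      (N / (m + 1))).X w) : ℝ) ≤ clsNum W (pw ops P N).X (pw ops P N).D := by exact_mod_cast h5
  have h7 : (s : ℝ) * (Module.finrank W.K (MK W (tw ops (pw ops P m) (pw ops P (N % (m + 1)))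
      (N / (m + 1))).X w) : ℝ) ≤ s * clsNum W (pw ops P N).X (pw ops P N).D :=
    mul_le_mul_of_nonneg_left h6 (by positivity)
  push_cast at h4 ⊢
  linarith

/-- The classes modulo numerical equivalence are not more numerous. -/
theorem total_le_clsNum {D : X.Cycles} {f : Module.End W.K (W.H X)} (F : Fr W X D f) :
    total W X D ≤ clsNum W X D := by
  obtain ⟨w, hw01, hwd⟩ : ∃ w : ℤ, (w = 0 ∨ w = 1) ∧ (2 : ℤ) ∣ X.dim + w := by
    rcases Nat.even_or_odd' X.dim with ⟨c, hc | hc⟩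
    · exact ⟨0, Or.inl rfl, by omega⟩
    · exact ⟨1, Or.inr rfl, by omega⟩
  obtain ⟨ι, hι, y, σ, hy1, hy2, hs, hyy, hyo, -, hcard⟩ := exists_famc F w
  have hc : Fintype.card ι = total W X D := by
    rw [wsum_full _ _ hw01 hwd] at hcard
    rw [total]
    exact_mod_cast hcard
  have h1 := card_add_NK F hy1 hy2 hs hyy hyo
  have h2 := finrank_MK_le F w
  omega

end Pool.Agent.V7H23.ZD
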