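import Pool.Agent.V7H23.ZD.Nop

/-!
# The dimensions of the spaces of algebraic classes modulo homological equivalence
-/

open CategoryTheory AlgebraicGeometry Finset

universe u v

namespace Pool.Agent.V7H23.ZD

open Pool.Agent.H914 Pool.Agent.H914.VarClass Pool.Agent.H914.VarClass.Obj
  Pool.Agent.H914.WeilCohomology Pool.Agent.H281R3.HT Pool.Agent.W552 Pool.Agent.W539.Ker
  Pool.Agent.V7H23.ZO

variable {k : Type u} [Field k] {𝒱 : VarClass k} {ops : CycleOps 𝒱}
  {W : WeilCohomology.{u, v} ops} {X Y Z : 𝒱.Obj}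

/-- The space spanned by the algebraic classes of weight `m`. -/
noncomputable def MK (W : WeilCohomology.{u, v} ops) (X : 𝒱.Obj) (m : ℤ) :
    Submodule W.K (W.H X) :=
  Submodule.span W.K {x | AS W X x ∧ wt (W.isInternal X) X.dim x = (m : W.K) • x}

/-- The numerically trivial part. -/
noncomputable def NK (W : WeilCohomology.{u, v} ops) (X : 𝒱.Obj) (m : ℤ) :
    Submodule W.K (W.H X) :=
  MK W X m ⊓ ⨅ y : {y // AS W X y}, LinearMap.ker ((bil W X).flip y.1)

lemma mem_NK {m : ℤ} {x : W.H X} :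
    x ∈ NK W X m ↔ x ∈ MK W X m ∧ ∀ y, AS W X y → W.tr X (x * y) = 0 := by
  rw [NK, Submodule.mem_inf, Submodule.mem_iInf]
  constructor
  · rintro ⟨h1, h2⟩
    exact ⟨h1, fun y hy => h2 ⟨y, hy⟩⟩
  · rintro ⟨h1, h2⟩
    exact ⟨h1, fun y => h2 y.1 y.2⟩

lemma NOp.map_MK {u : Module.End W.K (W.H X)} (h : NOp W X X u)
    (hw : ∀ a, wt (W.isInternal X) X.dim (u a) = u (wt (W.isInternal X) X.dim a)) {m : ℤ}
    {x : W.H X} (hx : x ∈ MK W X m) : u x ∈ NK W X m := by
  induction hx using Submodule.span_induction with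
  | mem x hx =>
    have h1 := h.apply hx.1
    refine mem_NK.2 ⟨Submodule.subset_span ⟨h1.1, ?_⟩, h1.2⟩
    rw [hw, hx.2, map_smul]
  | zero => rw [map_zero]; exact Submodule.zero_mem _
  | add x y _ _ hx hy => rw [map_add]; exact Submodule.add_mem _ hx hy
  | smul c x _ hx => rw [map_smul]; exact Submodule.smul_mem _ _ hx

/-- The classes modulo numerical equivalence. -/
lemma card_add_NK {D : X.Cycles} {f : Module.End W.K (W.H X)} (F : Fr W X D f) {m : ℤ}
    {ι : Type} [Fintype ι] {y : ι → W.H X} {s : ι → ℚ} (hy1 : ∀ i, AS W X (y i))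
    (hy2 : ∀ i, wt (W.isInternal X) X.dim (y i) = (m : W.K) • y i) (hs : ∀ i, s i ≠ 0)
    (hyy : ∀ i, bf W X D f (y i) (y i) = (s i : W.K))
    (hyo : ∀ i j, i ≠ j → bf W X D f (y i) (y j) = 0) :
    Fintype.card ι + Module.finrank W.K (NK W X m) ≤ Module.finrank W.K (MK W X m) := by
  classical
  let Φ : W.H X →ₗ[W.K] (ι → W.K) := LinearMap.pi fun i => (bf W X D f).flip (y i)
  have hΦ : ∀ x i, Φ x i = bf W X D f x (y i) := fun _ _ => rfl
  let Ψ : MK W X m →ₗ[W.K] (ι → W.K) := Φ ∘ₗ (MK W X m).subtype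
  have hsK : ∀ i, ((s i : ℚ) : W.K) ≠ 0 := fun i => by exact_mod_cast hs i
  have hsur : Function.Surjective Ψ := by
    intro g
    have hm : ∀ i, y i ∈ MK W X m := fun i => Submodule.subset_span ⟨hy1 i, hy2 i⟩
    refine ⟨⟨∑ i, (g i / (s i : W.K)) • y i, Submodule.sum_mem _ (fun i _ =>
      Submodule.smul_mem _ _ (hm i))⟩, ?_⟩
    funext j
    change Φ (∑ i, (g i / (s i : W.K)) • y i) j = g j
    rw [hΦ, map_sum, LinearMap.sum_apply, Finset.sum_eq_single j]
    · rw [map_smul, LinearMap.smul_apply, hyy, smul_eq_mul, div_mul_cancel₀ _ (hsK j)]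
    · intro i _ hij
      rw [map_smul, LinearMap.smul_apply, hyo i j hij, smul_zero]
    · intro h; exact absurd (Finset.mem_univ _) h
  have h1 := LinearMap.finrank_range_add_finrank_ker Ψ
  rw [LinearMap.range_eq_top.2 hsur, finrank_top, Module.finrank_fintype_fun_eq_card] at h1
  have h2 : Module.finrank W.K (NK W X m) ≤ Module.finrank W.K (LinearMap.ker Ψ) := by
    let J : NK W X m →ₗ[W.K] LinearMap.ker Ψ :=
      LinearMap.codRestrict (LinearMap.ker Ψ)
        (Submodule.inclusion (inf_le_left : NK W X m ≤ MK W X m)) (by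
        intro x
        rw [LinearMap.mem_ker]
        funext i
        change Φ (x : W.H X) i = 0
        rw [hΦ, bf_apply]
        exact (mem_NK.1 x.2).2 _ (F.st_AS (hy1 i)))
    refine LinearMap.finrank_le_finrank_of_injective (f := J) ?_
    intro x x' hxx
    have h3 := congrArg (fun t : LinearMap.ker Ψ => ((t : MK W X m) : W.H X)) hxx
    exact Subtype.ext h3
  omega

/-- **The bound for a variety with numerically trivial operators.** -/
theorem HasNil.bound {D : X.Cycles} {q b c : ℕ} (h : HasNil W X D q b c) {m : ℤ}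
    (hm : m = 0 ∨ m = 1) (hd : (2 : ℤ) ∣ X.dim + m) (t s : ℕ) {x : ℝ} (hx : 1 ≤ x) :
    (t : ℝ) * total W X D ≤ s * Module.finrank W.K (MK W X m) +
      t * (2 ^ t * (((b : ℝ) - 1 / 2) ^ q * c)) +
      q * ((x ^ s)⁻¹ * ((x + x⁻¹ + ((b : ℝ) - 2)) ^ q * c)) := by
  obtain ⟨f, F, T, hT, hwT, hWD⟩ := h
  obtain ⟨ι, hι, y, σ, hy1, hy2, hs, hyy, hyo, -, hcard⟩ := exists_famc F m
  have hc : Fintype.card ι = total W X D := by
    rw [wsum_full _ _ hm hd] at hcard
    rw [total]
    exact_mod_cast hcard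
  have h1 := card_add_NK F hy1 hy2 hs hyy hyo
  rw [hc] at h1
  exact hWD.bound (M := MK W X m) (N := NK W X m) inf_le_left
    (fun i x hx => (hT i).map_MK (hwT i) hx) h1 t s hx

/-- The total number of primitive algebraic classes modulo homological equivalence: the sum
of the dimensions of the spaces spanned by the classes of the primitive cycles. -/
noncomputable def clsNum (W : WeilCohomology.{u, v} ops) (X : 𝒱.Obj) (D : X.Cycles) : ℕ :=
  ∑ j ∈ range (X.dim / 2 + 1),
    Module.finrank W.K (Submodule.span W.K (W.cl X '' {z | Primitive W X D j z}))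

/-- The Lefschetz decomposition of the algebraic classes. -/
theorem finrank_MK_le {D : X.Cycles} {f : Module.End W.K (W.H X)} (F : Fr W X D f) (m : ℤ) :
    Module.finrank W.K (MK W X m) ≤ clsNum W X D := by
  classical
  set L := LinearMap.mulLeft W.K (W.cl X D) with hL
  obtain ⟨l, hl⟩ : ∃ l : ℕ, l = ((X.dim + m) / 2).toNat := ⟨_, rfl⟩
  let S : Fin (X.dim / 2 + 1) → Submodule W.K (W.H X) := fun j =>
    Submodule.span W.K (W.cl X '' {z | Primitive W X D j z})
  let Φ : (∀ j, S j) →ₗ[W.K] W.H X :=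
    ∑ j : Fin (X.dim / 2 + 1), (L ^ (l - (j : ℕ))) ∘ₗ (S j).subtype ∘ₗ LinearMap.proj j
  have hΦ : ∀ x, Φ x = ∑ j : Fin (X.dim / 2 + 1), (L ^ (l - (j : ℕ))) ((x j : S j) : W.H X) := by
    intro x
    change (∑ j : Fin (X.dim / 2 + 1), (L ^ (l - (j : ℕ))) ∘ₗ (S j).subtype ∘ₗ
      LinearMap.proj j : (∀ j, S j) →ₗ[W.K] W.H X) x = _
    rw [LinearMap.sum_apply]
    rfl
  have hle : MK W X m ≤ LinearMap.range Φ := by
    rw [MK, Submodule.span_le]
    rintro x ⟨hx1, hx2⟩
    rcases AS_wt hx1 hx2 with rfl | ⟨l', hl', hxl⟩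
    · exact Submodule.zero_mem _
    obtain rfl : l' = l := by omega
    obtain ⟨v, hv, hs⟩ := (ap_alg F).decomp (mulLeft_isHom F.hD) W_hbd hxl
    rw [← hL] at hv hs
    rw [hs]
    refine Submodule.sum_mem _ (fun b hb => ?_)
    rw [Finset.mem_range] at hb
    obtain ⟨h1, h2, h3⟩ := hv b (by omega)
    by_cases h0 : v b = 0
    · rw [h0, map_zero]; exact Submodule.zero_mem _
    have h4 := h2 h0
    obtain ⟨z, hz, hzv⟩ := h1
    have hprim : Primitive W X D (l' - b) z := ⟨hz, by rw [cl_divPow, hzv]; exact h3⟩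
    have hj : l' - b < X.dim / 2 + 1 := by omega
    refine ⟨Pi.single (⟨l' - b, hj⟩ : Fin (X.dim / 2 + 1))
      (⟨v b, Submodule.subset_span ⟨z, hprim, hzv⟩⟩ : S ⟨l' - b, hj⟩), ?_⟩
    rw [hΦ, Finset.sum_eq_single (⟨l' - b, hj⟩ : Fin (X.dim / 2 + 1))]
    · rw [Pi.single_eq_same]
      change (L ^ (l' - (l' - b))) (v b) = (L ^ b) (v b)
      rw [show l' - (l' - b) = b by omega]
    · intro j _ hj
      rw [Pi.single_eq_of_ne hj]
      simp
    · intro h; exact absurd (Finset.mem_univ _) h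
  calc Module.finrank W.K (MK W X m) ≤ Module.finrank W.K (LinearMap.range Φ) :=
        Submodule.finrank_mono hle
    _ ≤ Module.finrank W.K (∀ j, S j) := LinearMap.finrank_range_le Φ
    _ = ∑ j : Fin (X.dim / 2 + 1), Module.finrank W.K (S j) := Module.finrank_pi_fintype W.K
    _ = clsNum W X D := by
      rw [clsNum, Finset.sum_range]

/-- Pull-back preserves the weights. -/
lemma wt_map {X Y : 𝒱.Obj} (g : X ⟶ Y) (hd : X.dim = Y.dim) (x : W.H Y) :
    wt (W.isInternal X) X.dim (W.map g x) = W.map g (wt (W.isInternal Y) Y.dim x) := by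
  refine gr_induction (W.isInternal Y) (p := fun x => wt (W.isInternal X) X.dim (W.map g x) =
    W.map g (wt (W.isInternal Y) Y.dim x)) ?_ ?_ x
  · intro i x hx
    rw [Fr.wt_gr hx, Fr.wt_gr (W.map_mem g hx), map_smul, hd]
  · intro x y hx hy
    rw [map_add, map_add, hx, hy, map_add, map_add]

lemma PMap.finrank_le {P Q : Polarized 𝒱} (h : PMap W P Q) (m : ℤ) :
    Module.finrank W.K (MK W Q.X m) ≤ Module.finrank W.K (MK W P.X m) := by
  obtain ⟨hd, φ, -, htr⟩ := h
  have hinj : Function.Injective (W.map φ) := by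
    rw [injective_iff_map_eq_zero]
    intro a ha
    apply W.nondeg
    intro b
    rw [← htr, map_mul, ha, zero_mul, map_zero]
  have hmem : ∀ x ∈ MK W Q.X m, W.map φ x ∈ MK W P.X m := by
    intro x hx
    induction hx using Submodule.span_induction with
    | mem x hx =>
      exact Submodule.subset_span ⟨hx.1.map φ, by rw [wt_map φ hd, hx.2, map_smul]⟩
    | zero => rw [map_zero]; exact Submodule.zero_mem _
    | add x y _ _ hx hy => rw [map_add]; exact Submodule.add_mem _ hx hy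
    | smul c x _ hx => rw [map_smul]; exact Submodule.smul_mem _ _ hx
  let J : MK W Q.X m →ₗ[W.K] MK W P.X m :=
    ((W.map φ).toLinearMap ∘ₗ (MK W Q.X m).subtype).codRestrict _ (fun x => hmem x.1 x.2)
  refine LinearMap.finrank_le_finrank_of_injective (f := J) ?_
  intro x y hxy
  have h1 := congrArg (fun t : MK W P.X m => (t : W.H P.X)) hxy
  exact Subtype.ext (hinj h1)

end Pool.Agent.V7H23.ZD
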