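import Pool.Agent.V7H23.ZD.Pwr
import Pool.Agent.V7H23.ZD.Ana
import Pool.Agent.V7H23.ZO.Real
import Pool.Agent.H914R2.HodgeDefs

/-!
# The number of the classes modulo homological and modulo numerical equivalence
-/

open CategoryTheory AlgebraicGeometry Finset

universe u v

namespace Pool.Agent.V7H23.ZD

open Pool.Agent.H914 Pool.Agent.H914.VarClass Pool.Agent.H914.VarClass.Obj
  Pool.Agent.H914.WeilCohomology Pool.Agent.H281R3.HT Pool.Agent.W552 Pool.Agent.W539.Ker
  Pool.Agent.V7H23.ZO

variable {k : Type u} [Field k] {𝒱 : VarClass k} {ops : CycleOps 𝒱}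
  {W : WeilCohomology.{u, v} ops} {X Y Z : 𝒱.Obj} {D : X.Cycles} {f : Module.End W.K (W.H X)}

section Form

variable (F : Fr W X D f)

include F

/-- A primitive cycle which is orthogonal to all primitive cycles is numerically trivial. -/
theorem num_triv_of_orth {j : ℕ} (hj : 2 * j ≤ X.dim) {z : X.Cycles} (hz : Primitive W X D j z)
    (horth : ∀ z', Primitive W X D j z' → pairing ops X D j z z' = 0) :
    ∀ w, X.IsCyc (X.dim - j) w → X.V.degCycle (ops.mul z w) = 0 := by
  intro w hw
  set L := LinearMap.mulLeft W.K (W.cl X D) with hL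
  obtain ⟨w', hw', hww⟩ := F.lefschetzA j hj w hw
  obtain ⟨u, hu, hus⟩ := (ap_alg F).decomp_low (mulLeft_isHom F.hD) W_hbd j hj (W.cl X w')
    ⟨w', hw', rfl⟩
  rw [← hL] at hus
  have hzp : (L ^ (X.dim - 2 * j + 1)) (W.cl X z) = 0 := by
    rw [hL, ← cl_divPow]; exact hz.2
  have key : W.tr X (W.cl X z * W.cl X w) = 0 := by
    rw [← hww, cl_divPow, ← hL, hus, map_sum, Finset.mul_sum, map_sum]
    apply Finset.sum_eq_zero
    intro b hb
    rw [Finset.mem_range] at hb
    obtain ⟨hu1, hu2⟩ := hu b (by omega)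
    rcases Nat.eq_zero_or_pos b with rfl | hb0
    · rw [pow_zero, Module.End.one_apply]
      obtain ⟨z0, hz0, hz0'⟩ := hu1
      rw [Nat.sub_zero] at hz0 hu2
      have hprim : Primitive W X D j z0 := ⟨hz0, by rw [cl_divPow, hz0']; exact hu2⟩
      have h1 := pairing_cast (W := W) F.hD hj hz.1 hz0
      rw [horth z0 hprim, Rat.cast_zero, hz0'] at h1
      exact (mul_eq_zero.1 h1.symm).resolve_left (pow_ne_zero _ (by norm_num))
    · rw [← Module.End.mul_apply, ← pow_add, hL, ← L_pow_self F.hD, ← hL,
        L_pow_gt (n := X.dim) (i := 2 * j) hzp (by omega), zero_mul, map_zero]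
  have h2 := deg_cast F (by omega) hz.1 hw
  rw [key] at h2
  exact_mod_cast h2

/-- The dimension of the span of the primitive classes. -/
theorem finrank_prim_le {j : ℕ} (hj : 2 * j ≤ X.dim) {M : ℕ} {x : Fin M → PM W X D j}
    (hx : OM (BP W F.hD j hj) x)
    (h : ∀ z : PM W X D j, (∀ t, BP W F.hD j hj z (x t) = 0) → W.cl X (z : X.Cycles) = 0) :
    Module.finrank W.K (Submodule.span W.K (W.cl X '' {z | Primitive W X D j z})) ≤
      tot W X D j := by
  classical
  rw [tot_eq F.hD hj hx]
  have hsp : Submodule.span W.K (W.cl X '' {z | Primitive W X D j z}) ≤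
      Submodule.span W.K (Set.range fun t => W.cl X (x t : X.Cycles)) := by
    rw [Submodule.span_le]
    rintro _ ⟨z, hz, rfl⟩
    let Z : PM W X D j := ⟨z, hz⟩
    set B := BP W F.hD j hj with hB
    set c : Fin M → ℚ := fun t => B Z (x t) / B (x t) (x t) with hc
    have h1 : ∀ t, B (Z - ∑ t, c t • x t) (x t) = 0 := by
      intro t
      rw [map_sub, LinearMap.sub_apply, map_sum, LinearMap.sum_apply, Finset.sum_eq_single t]
      · rw [map_smul, LinearMap.smul_apply, smul_eq_mul, hc]
        change B Z (x t) - B Z (x t) / B (x t) (x t) * B (x t) (x t) = 0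
        rw [div_mul_cancel₀ _ (hx.ne t), sub_self]
      · intro t' _ ht
        rw [map_smul, LinearMap.smul_apply, hx.orth t' t ht, smul_zero]
      · intro h; exact absurd (Finset.mem_univ _) h
    have h2 := h _ h1
    have h3 : ((Z - ∑ t, c t • x t : PM W X D j) : X.Cycles) =
        z - ∑ t, c t • (x t : X.Cycles) := by
      rw [Submodule.coe_sub]
      congr 1
      rw [Submodule.coe_sum]
      rfl
    rw [h3, map_sub, sub_eq_zero] at h2
    rw [h2, map_sum]
    refine Submodule.sum_mem _ (fun t _ => ?_)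
    rw [cl_smul]
    exact Submodule.smul_mem _ _ (Submodule.subset_span ⟨t, rfl⟩)
  have h1 := Submodule.finrank_mono hsp
  have h2 := finrank_range_le_card (R := W.K) (fun t => W.cl X (x t : X.Cycles))
  rw [Fintype.card_fin] at h2
  exact h1.trans h2

/-- The primitive classes are not more numerous than modulo numerical equivalence, if
homological and numerical equivalence coincide. -/
theorem clsNum_le_of_hom (h : HomEqNum W X) : clsNum W X D ≤ total W X D := by
  apply Finset.sum_le_sum
  intro j hj
  have hj' : 2 * j ≤ X.dim := by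
    have := Finset.mem_range.1 hj
    omega
  obtain ⟨M, x, hx⟩ := exists_prim W F.hD hj'
  refine finrank_prim_le F hj' hx ?_
  intro z hz
  set B := BP W F.hD j hj' with hB
  have hBs : ∀ a b, B a b = B b a := BP_symm F.hD hj'
  refine h j (by omega) z z.2.1 (num_triv_of_orth F hj' z.2 ?_)
  intro z' hz'
  let Z' : PM W X D j := ⟨z', hz'⟩
  change B z Z' = 0
  set c : Fin M → ℚ := fun t => B Z' (x t) / B (x t) (x t) with hc
  have h1 : ∀ t, B (Z' - ∑ t, c t • x t) (x t) = 0 := by
    intro t
    rw [map_sub, LinearMap.sub_apply, map_sum, LinearMap.sum_apply, Finset.sum_eq_single t]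
    · rw [map_smul, LinearMap.smul_apply, smul_eq_mul, hc]
      change B Z' (x t) - B Z' (x t) / B (x t) (x t) * B (x t) (x t) = 0
      rw [div_mul_cancel₀ _ (hx.ne t), sub_self]
    · intro t' _ ht
      rw [map_smul, LinearMap.smul_apply, hx.orth t' t ht, smul_zero]
    · intro h; exact absurd (Finset.mem_univ _) h
  set U := Z' - ∑ t, c t • x t with hU
  have e1 : B z z = 0 := hx.max z hz
  have e2 : B U U = 0 := hx.max U h1
  have e3 : B (z + U) (z + U) = 0 := by
    apply hx.max
    intro t
    rw [map_add, LinearMap.add_apply, hz, h1, add_zero]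
  have e4 : B z U = 0 := by
    rw [map_add, map_add, LinearMap.add_apply, LinearMap.add_apply, e1, e2, hBs U z] at e3
    linarith
  have e5 : Z' = U + ∑ t, c t • x t := by rw [hU]; abel
  rw [e5, map_add, e4, zero_add, map_sum]
  apply Finset.sum_eq_zero
  intro t _
  rw [map_smul, hz, smul_zero]

/-- The same under the standard conjecture of Hodge type. -/
theorem clsNum_le_of_hodge (h : HodgeType W X D) : clsNum W X D ≤ total W X D := by
  apply Finset.sum_le_sum
  intro j hj
  have hj' : 2 * j ≤ X.dim := by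
    have := Finset.mem_range.1 hj
    omega
  obtain ⟨M, x, hx⟩ := exists_prim W F.hD hj'
  refine finrank_prim_le F hj' hx ?_
  intro z hz
  by_contra hne
  have h1 := h j hj' z z.2.1 z.2.2 hne
  have h2 : BP W F.hD j hj' z z = 0 := hx.max z hz
  change 0 < BP W F.hD j hj' z z at h1
  rw [h2] at h1
  exact lt_irrefl _ h1

/-- The conjecture of Hodge type implies the numerical version. -/
theorem hnum_of_hodge (h : HodgeType W X D) : HNum W X D := by
  intro j hj z hz hw
  obtain ⟨w, hw, hzw⟩ := hw
  refine h j hj z hz.1 hz.2 (fun h0 => hzw ?_)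
  have h1 := deg_cast F (by omega) hz.1 hw
  rw [h0, zero_mul, map_zero] at h1
  exact_mod_cast h1

/-- The numerical version and the equality of the equivalences imply the conjecture. -/
theorem hodge_of_hnum (h : HNum W X D) (h' : HomEqNum W X) : HodgeType W X D := by
  intro j hj z hz hprim hne
  refine h j hj z ⟨hz, hprim⟩ ?_
  by_contra hno
  push Not at hno
  exact hne (h' j (by omega) z hz hno)

/-- A cycle which is numerically but not homologically trivial. -/
theorem exists_nt (h : ¬ HomEqNum W X) :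
    ∃ j ≤ X.dim, ∃ v ∈ W.gr X (2 * j), v ≠ 0 ∧ NT W X v := by
  unfold HomEqNum at h
  push Not at h
  obtain ⟨j, hj, z, hz, hw, hne⟩ := h
  refine ⟨j, hj, W.cl X z, W.cl_mem hz, hne, AS.of ⟨z, hz, rfl⟩, fun y hy => ?_⟩
  refine AS.ind (p := fun y => W.tr X (W.cl X z * y) = 0) ?_ ?_ hy
  · rintro i _ ⟨w, hwi, rfl⟩
    by_cases hij : i = X.dim - j
    · subst hij
      rw [← deg_cast F hj hz hwi, hw w hwi, Rat.cast_zero]
    · exact W.tr_eq_zero (W.mul_mem (W.cl_mem hz) (W.cl_mem hwi)) (by omega)
  · intro a b ha hb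
    rw [mul_add, map_add, ha, hb, add_zero]

end Form

/-- **If homological and numerical equivalence do not coincide on some power, then almost all
classes are lost modulo numerical equivalence.** -/
theorem few_num {P : Polarized 𝒱} {f : Module.End W.K (W.H P.X)} (F : Fr W P.X P.D f)
    (S : Sy W P.X P.D f) (hp : Pos1 W P.X P.D f) {m : ℕ} (h : ¬ HomEqNum W (pw ops P m).X) :
    ∃ C : ℝ, 0 < C ∧ ∀ N : ℕ, (total W (pw ops P N).X (pw ops P N).D : ℝ) ≤
      C * Real.sqrt (Real.log (N + 2) / (N + 1)) * clsNum W (pw ops P N).X (pw ops P N).D := by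
  obtain ⟨j, hj, v, hv, hv0, hvt⟩ := exists_nt (fr_gpw F m) h
  have h2 := (total_le F hp hj hv hv0 hvt 0 0 0 (le_refl (1 : ℝ))).1
  exact rate (b := Module.finrank W.K (W.H P.X)) (m := m)
    (B := Module.finrank W.K (W.H P.X) ^ 2) h2
    (R := fun N => total W (pw ops P N).X (pw ops P N).D)
    (a := fun N => clsNum W (pw ops P N).X (pw ops P N).D)
    (fun N => total_pw F S hp N) (fun N => total_le_clsNum (fr_gpw F N))
    (fun N t s x hx => (total_le F hp hj hv hv0 hvt N t s hx).2)

end Pool.Agent.V7H23.ZD
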